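import Mathlib
import Pool.Agent.W777.DL.Dim
set_option autoImplicit false

/-! The dimension of a limsup set in several parameters. -/

namespace Pool.Agent.W777.MF

open MeasureTheory Set Metric Filter
open scoped ENNReal NNReal Topology
open Pool.Agent.W777.DL (grid)

variable {m : ℕ}

/-- the small cubes -/
def II (c w : ℝ) (j : ℕ) (k : Fin m → ℕ) : Set (Fin m → ℝ) :=
  Icc (fun i => c + k i * (w / (2 ^ j : ℕ))) (fun i => c + k i * (w / (2 ^ j : ℕ)) + w / (2 ^ j : ℕ))

lemma sum_II {c w : ℝ} (hw : 0 < w) (j : ℕ) (Z : (Fin m → ℝ) → ℝ≥0∞) :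
    ∑ k ∈ Fintype.piFinset (fun _ : Fin m => Finset.range (2 ^ j)), ∫⁻ s in II c w j k, Z s ≤
      ∫⁻ s in Icc (fun _ : Fin m => c) (fun _ => c + w), Z s := by
  set N : ℕ := 2 ^ j with hN
  have hNpos : 0 < N := by rw [hN]; positivity
  have hNR : (0:ℝ) < N := by exact_mod_cast hNpos
  set h := w / (N : ℝ) with hh
  have hh0 : 0 < h := by positivity
  have hNh : (N : ℝ) * h = w := by rw [hh]; field_simp
  set I' : (Fin m → ℕ) → Set (Fin m → ℝ) := fun k =>
    univ.pi fun i => Ioc (c + k i * h) (c + k i * h + h) with hI'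
  have hae : ∀ k : Fin m → ℕ, I' k =ᵐ[volume] II c w j k := by
    intro k
    have := Measure.univ_pi_Ioc_ae_eq_Icc (μ := fun _ : Fin m => (volume : Measure ℝ))
      (f := fun i => c + k i * h) (g := fun i => c + k i * h + h)
    exact this
  have h1 : ∀ k, ∫⁻ s in II c w j k, Z s = ∫⁻ s in I' k, Z s := fun k =>
    (setLIntegral_congr (hae k)).symm
  simp only [h1]
  rw [← lintegral_biUnion_finset]
  · apply lintegral_mono_set
    intro s hs
    simp only [mem_iUnion, Fintype.mem_piFinset, Finset.mem_range] at hs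
    obtain ⟨k, hk, hs⟩ := hs
    refine ⟨fun i => ?_, fun i => ?_⟩
    · have := (hs i (mem_univ _)).1
      have h2 : (0:ℝ) ≤ k i * h := by positivity
      linarith
    · have := (hs i (mem_univ _)).2
      have h2 : ((k i : ℕ) : ℝ) + 1 ≤ N := by exact_mod_cast hk i
      have h3 : ((k i : ℝ) + 1) * h ≤ N * h := mul_le_mul_of_nonneg_right h2 hh0.le
      linarith
  · intro k _ k' _ hkk
    obtain ⟨i, hi⟩ := Function.ne_iff.1 hkk
    rw [Function.onFun, Set.disjoint_left]
    intro s hs hs'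
    have a1 := hs i (mem_univ _)
    have a2 := hs' i (mem_univ _)
    rcases lt_or_gt_of_ne hi with h2 | h2
    · have h3 : ((k i : ℕ) : ℝ) + 1 ≤ k' i := by exact_mod_cast h2
      have h4 : ((k i : ℝ) + 1) * h ≤ k' i * h := mul_le_mul_of_nonneg_right h3 hh0.le
      linarith [a1.2, a2.1]
    · have h3 : ((k' i : ℕ) : ℝ) + 1 ≤ k i := by exact_mod_cast h2
      have h4 : ((k' i : ℝ) + 1) * h ≤ k i * h := mul_le_mul_of_nonneg_right h3 hh0.le
      linarith [a2.2, a1.1]
  · intro k _
    exact MeasurableSet.univ_pi fun i => measurableSet_Ioc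

theorem dim_bound {c w : ℝ} (hw : 0 < w) (D Z : ℕ → (Fin m → ℝ) → ℝ≥0∞) (C1 C2 : ℝ≥0∞)
    (hC1 : C1 ≠ ⊤) (hC2 : C2 ≠ ⊤) (γ e : ℝ) (hge : 0 ≤ γ + e)
    (h1 : ∀ (j : ℕ) (a : Fin m → ℝ), ∀ L ∈ Icc a (fun i => a i + w / (2 ^ j : ℕ)),
      ENNReal.ofReal (w / (2 ^ j : ℕ)) ^ m * D j L ≤
      C1 * ∫⁻ s in Icc a (fun i => a i + w / (2 ^ j : ℕ)), Z j s)
    (h2 : ∀ j : ℕ, ∫⁻ s in Icc (fun _ : Fin m => c) (fun _ => c + w), Z j s ≤
      C2 * ENNReal.ofReal (((2 ^ j : ℕ) : ℝ) ^ (e - m))) :
    dimH {L ∈ Icc (fun _ : Fin m => c) (fun _ => c + w) | ∃ᶠ j in atTop,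
      ENNReal.ofReal (((2 ^ j : ℕ) : ℝ) ^ (-γ)) < D j L} ≤ ENNReal.ofReal (γ + e) := by
  refine ENNReal.le_of_forall_pos_le_add fun ε hε _ => ?_
  set s : ℝ≥0 := Real.toNNReal (γ + e) + ε with hs
  have hsR : (s : ℝ) = γ + e + ε := by
    rw [hs, NNReal.coe_add, Real.coe_toNNReal _ hge]
  have hs0 : 0 < (s : ℝ) := by
    rw [hsR]
    have : (0:ℝ) < ε := hε
    linarith
  have e1 : ENNReal.ofReal (γ + e) + ε = (s : ℝ≥0∞) := by
    rw [hs, ENNReal.coe_add]
    rfl
  rw [e1]
  apply dimH_le_of_hausdorffMeasure_ne_top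
  set N : ℕ → ℕ := fun j => 2 ^ j with hN
  have hNpos : ∀ j, 0 < N j := fun j => by rw [hN]; positivity
  have hNR : ∀ j, (0:ℝ) < N j := fun j => by exact_mod_cast hNpos j
  set bad : ℕ → (Fin m → ℕ) → Prop := fun j k => (∀ i, k i < N j) ∧ ∃ L ∈ II c w j k,
    ENNReal.ofReal ((N j : ℝ) ^ (-γ)) < D j L with hbad
  classical
  set S := {L ∈ Icc (fun _ : Fin m => c) (fun _ => c + w) | ∃ᶠ j in atTop,
    ENNReal.ofReal ((N j : ℝ) ^ (-γ)) < D j L} with hS
  set t : ℕ → ℕ × (Fin m → ℕ) → Set (Fin m → ℝ) :=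
    fun n p => if n ≤ p.1 ∧ bad p.1 p.2 then II c w p.1 p.2 else ∅ with ht
  have hdiam : ∀ j (k : Fin m → ℕ), ediam (II c w j k) ≤ ENNReal.ofReal (w / N j) := by
    intro j k
    unfold II
    rw [← pi_univ_Icc]
    refine ediam_pi_le_of_le fun i => ?_
    rw [Real.ediam_Icc]
    apply ENNReal.ofReal_le_ofReal
    rw [add_sub_cancel_left]
  have hcov : ∀ n, S ⊆ ⋃ p, t n p := by
    intro n L hL
    obtain ⟨j, hj, hD⟩ := frequently_atTop.1 hL.2 n
    have hg : ∀ i, ∃ k < N j, L i ∈ Icc (c + k * (w / N j)) (c + (k + 1) * (w / N j)) :=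
      fun i => grid hw (hNpos j) ⟨hL.1.1 i, hL.1.2 i⟩
    choose k hk hLk using hg
    refine mem_iUnion.2 ⟨(j, k), ?_⟩
    have hmem : L ∈ II c w j k := by
      refine ⟨fun i => (hLk i).1, fun i => ?_⟩
      have := (hLk i).2
      have e2 : c + (k i + 1) * (w / N j) = c + k i * (w / N j) + w / N j := by ring
      rw [e2] at this
      exact this
    have hb : bad j k := ⟨hk, L, hmem, hD⟩
    rw [ht]
    simp only
    rw [if_pos ⟨hj, hb⟩]
    exact hmem
  -- the sum
  set term : ℕ × (Fin m → ℕ) → ℝ≥0∞ :=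
    fun p => if bad p.1 p.2 then ENNReal.ofReal (w / N p.1) ^ (s : ℝ) else 0 with hterm
  have hle : ∀ n p, ediam (t n p) ^ (s : ℝ) ≤ term p := by
    intro n p
    rw [ht, hterm]
    simp only
    by_cases hb : bad p.1 p.2
    · rw [if_pos hb]
      by_cases hn : n ≤ p.1
      · rw [if_pos ⟨hn, hb⟩]
        exact ENNReal.rpow_le_rpow (hdiam _ _) hs0.le
      · rw [if_neg (fun h => hn h.1), Metric.ediam_empty, ENNReal.zero_rpow_of_pos hs0]
        exact zero_le
    · rw [if_neg hb, if_neg (fun h => hb h.2), Metric.ediam_empty, ENNReal.zero_rpow_of_pos hs0]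
  have hH := Measure.hausdorffMeasure_le_liminf_tsum (s : ℝ) S (l := atTop)
    (fun n : ℕ => ENNReal.ofReal (w / N n)) ?_ t ?_ (Eventually.of_forall hcov)
  · have hK : ∑' p, term p < ⊤ := by
      rw [ENNReal.tsum_prod']
      set A : ℝ≥0∞ := ENNReal.ofReal (w ^ ((s : ℝ) - m)) * C1 * C2 with hA
      set ρ : ℝ := (2:ℝ) ^ (γ + e - s) with hρ
      have hrow : ∀ j, ∑' k, term (j, k) ≤ A * ENNReal.ofReal ρ ^ j := by
        intro j
        have hX : ENNReal.ofReal ((w / N j) ^ m * (N j : ℝ) ^ (-γ)) ≠ 0 := by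
          apply (ENNReal.ofReal_pos.2 _).ne'
          have := hNR j
          positivity
        set X := ENNReal.ofReal ((w / N j) ^ m * (N j : ℝ) ^ (-γ)) with hXd
        have hsum : ∑' k, term (j, k) =
            ∑ k ∈ Fintype.piFinset (fun _ : Fin m => Finset.range (N j)), term (j, k) := by
          apply tsum_eq_sum
          intro k hk
          rw [hterm]
          simp only
          rw [if_neg]
          intro h
          apply hk
          rw [Fintype.mem_piFinset]
          intro i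
          exact Finset.mem_range.2 (h.1 i)
        rw [hsum]
        have hk : ∀ k ∈ Fintype.piFinset (fun _ : Fin m => Finset.range (N j)), term (j, k) ≤
            (ENNReal.ofReal (w / N j) ^ (s : ℝ) * X⁻¹ * C1) * ∫⁻ s in II c w j k, Z j s := by
          intro k hk
          rw [hterm]
          simp only
          by_cases hb : bad j k
          · rw [if_pos hb]
            obtain ⟨hkN, L, hLk, hD⟩ := hb
            have h3 := h1 j (fun i => c + k i * (w / (2 ^ j : ℕ))) L hLk
            have h4 : X ≤ C1 * ∫⁻ s in II c w j k, Z j s := by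
              refine le_trans ?_ h3
              rw [hXd, ENNReal.ofReal_mul (by have := hNR j; positivity),
                ENNReal.ofReal_pow (by have := hNR j; positivity)]
              gcongr
            calc ENNReal.ofReal (w / N j) ^ (s : ℝ) =
                  ENNReal.ofReal (w / N j) ^ (s : ℝ) * (X⁻¹ * X) := by
                  rw [ENNReal.inv_mul_cancel hX ENNReal.ofReal_ne_top, mul_one]
              _ ≤ ENNReal.ofReal (w / N j) ^ (s : ℝ) * (X⁻¹ * (C1 * ∫⁻ s in II c w j k,
                  Z j s)) := by gcongr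
              _ = _ := by ring
          · rw [if_neg hb]
            exact zero_le
        refine (Finset.sum_le_sum hk).trans ?_
        rw [← Finset.mul_sum]
        have h6 : ∑ k ∈ Fintype.piFinset (fun _ : Fin m => Finset.range (N j)),
            ∫⁻ s in II c w j k, Z j s ≤ C2 * ENNReal.ofReal ((N j : ℝ) ^ (e - m)) :=
          (sum_II hw j (Z j)).trans (h2 j)
        have h7 : ENNReal.ofReal (w / N j) ^ (s : ℝ) * X⁻¹ * ENNReal.ofReal ((N j : ℝ) ^ (e - m)) =
            ENNReal.ofReal (w ^ ((s : ℝ) - m)) * ENNReal.ofReal ρ ^ j := by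
          have hn := hNR j
          have hwN : 0 < w / N j := by positivity
          rw [hXd, ENNReal.ofReal_rpow_of_pos hwN, ← ENNReal.ofReal_inv_of_pos (by positivity),
            ← ENNReal.ofReal_mul (by positivity), ← ENNReal.ofReal_mul (by positivity),
            ← ENNReal.ofReal_pow (by positivity), ← ENNReal.ofReal_mul (by positivity)]
          congr 1
          have hNj : ((N j : ℕ) : ℝ) = (2:ℝ) ^ (j : ℝ) := by
            rw [hN]
            push_cast
            rw [Real.rpow_natCast]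
          have hρj : ρ ^ j = (N j : ℝ) ^ (γ + e - s) := by
            rw [hρ, hNj, ← Real.rpow_natCast, ← Real.rpow_mul (by norm_num),
              ← Real.rpow_mul (by norm_num)]
            congr 1
            ring
          rw [hρj, ← Real.rpow_natCast (w / N j) m, Real.div_rpow hw.le hn.le,
            Real.div_rpow hw.le hn.le, mul_inv, ← Real.rpow_neg hn.le, neg_neg]
          have a1 : w ^ (s : ℝ) = w ^ ((s : ℝ) - m) * w ^ (m : ℝ) := by
            rw [← Real.rpow_add hw]
            congr 1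
            ring
          have a2 : (N j : ℝ) ^ (γ + e - s) = (N j : ℝ) ^ γ * (N j : ℝ) ^ (e - m) *
              (N j : ℝ) ^ (m : ℝ) / (N j : ℝ) ^ (s : ℝ) := by
            rw [show γ + e - s = γ + (e - m) + m - s by ring, Real.rpow_sub hn, Real.rpow_add hn,
              Real.rpow_add hn]
          rw [a1, a2]
          have a3 : (0:ℝ) < w ^ (m : ℝ) := by positivity
          have a4 : (0:ℝ) < (N j : ℝ) ^ (m : ℝ) := by positivity
          have a5 : (0:ℝ) < (N j : ℝ) ^ (s : ℝ) := by positivity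
          field_simp
        calc (ENNReal.ofReal (w / N j) ^ (s : ℝ) * X⁻¹ * C1) *
              ∑ k ∈ Fintype.piFinset (fun _ : Fin m => Finset.range (N j)),
                ∫⁻ s in II c w j k, Z j s
            ≤ (ENNReal.ofReal (w / N j) ^ (s : ℝ) * X⁻¹ * C1) *
              (C2 * ENNReal.ofReal ((N j : ℝ) ^ (e - m))) := mul_le_mul' le_rfl h6
          _ = (ENNReal.ofReal (w / N j) ^ (s : ℝ) * X⁻¹ * ENNReal.ofReal ((N j : ℝ) ^ (e - m))) *
              (C1 * C2) := by ring
          _ = _ := by rw [h7, hA]; ring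
      refine lt_of_le_of_lt (ENNReal.tsum_le_tsum hrow) ?_
      rw [ENNReal.tsum_mul_left, ENNReal.tsum_geometric]
      refine ENNReal.mul_lt_top ?_ ?_
      · rw [hA]
        exact ENNReal.mul_lt_top (ENNReal.mul_lt_top ENNReal.ofReal_lt_top hC1.lt_top) hC2.lt_top
      · rw [ENNReal.inv_lt_top, tsub_pos_iff_lt, ← ENNReal.ofReal_one]
        rw [ENNReal.ofReal_lt_ofReal_iff zero_lt_one, hρ]
        apply Real.rpow_lt_one_of_one_lt_of_neg (by norm_num)
        rw [hsR]
        have : (0:ℝ) < ε := hε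
        linarith
    refine ne_of_lt (lt_of_le_of_lt (hH.trans ?_) hK)
    calc liminf (fun n => ∑' i, ediam (t n i) ^ (s : ℝ)) atTop
        ≤ liminf (fun _ : ℕ => ∑' p, term p) atTop := by
          refine liminf_le_liminf (Eventually.of_forall fun n => ?_)
          exact ENNReal.tsum_le_tsum (hle n)
      _ = ∑' p, term p := liminf_const _
  · have h8 : Tendsto (fun n : ℕ => w / (N n : ℝ)) atTop (𝓝 0) := by
      have : Tendsto (fun n : ℕ => ((N n : ℕ) : ℝ)) atTop atTop := by
        have h9 := tendsto_pow_atTop_atTop_of_one_lt (r := (2:ℝ)) (by norm_num)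
        refine h9.congr fun n => ?_
        rw [hN]
        push_cast
        rfl
      exact this.const_div_atTop w
    have h9 := ENNReal.tendsto_ofReal h8
    rwa [ENNReal.ofReal_zero] at h9
  · refine Eventually.of_forall fun n p => ?_
    rw [ht]
    simp only
    by_cases hb : n ≤ p.1 ∧ bad p.1 p.2
    · rw [if_pos hb]
      refine (hdiam _ _).trans ?_
      apply ENNReal.ofReal_le_ofReal
      have := hNR n
      have h10 : N n ≤ N p.1 := Nat.pow_le_pow_right (by norm_num) hb.1
      have h11 : (N n : ℝ) ≤ N p.1 := by exact_mod_cast h10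
      gcongr
    · rw [if_neg hb, Metric.ediam_empty]
      exact zero_le

end Pool.Agent.W777.MF
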