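import Mathlib
import Pool.Agent.W777.ST.B4
import Pool.Agent.W777.DL.Sob
set_option autoImplicit false

/-! Local constancy in several stretching parameters. -/

namespace Pool.Agent.W777.MF

open MeasureTheory Set Complex FourierTransform
open scoped ENNReal NNReal RealInnerProductSpace Topology
open Pool.Agent.H153R4
open Pool.Agent.W777.DL (sob)
open Pool.Agent.W777.ST (block4s J4 J4_fin)

variable {m : ℕ}

lemma sv_sum (t : ℝ) (l : Fin m → ℝ) (z : E (m + 1)) :
    ∑ j, sv (t, l) j * z j ^ 2 = t * z 0 ^ 2 + ∑ j : Fin m, t * l j * z j.succ ^ 2 := by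
  rw [Fin.sum_univ_succ]
  rfl

/-- multiplication by the square of the coordinate `j + 1` -/
noncomputable def gm (j : Fin m) (g : E (m + 1) → ℂ) (z : E (m + 1)) : ℂ :=
  ((z j.succ ^ 2 : ℝ) : ℂ) * g z

/-- multiplication by the squares of several coordinates -/
noncomputable def gS (S : Finset (Fin m)) (g : E (m + 1) → ℂ) (z : E (m + 1)) : ℂ :=
  ((∏ j ∈ S, z j.succ ^ 2 : ℝ) : ℂ) * g z

lemma gS_empty (g : E (m + 1) → ℂ) : gS ∅ g = g := by
  ext z
  simp [gS]

lemma gS_insert {j : Fin m} {S : Finset (Fin m)} (hj : j ∉ S) (g : E (m + 1) → ℂ) :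
    gS (insert j S) g = gS S (gm j g) := by
  ext z
  unfold gS gm
  rw [Finset.prod_insert hj]
  push_cast
  ring

lemma gS_sing (j : Fin m) (g : E (m + 1) → ℂ) : gS {j} g = gm j g := by
  ext z
  simp [gS, gm]

lemma gS_meas (S : Finset (Fin m)) {g : E (m + 1) → ℂ} (hg : Measurable g) :
    Measurable (gS S g) := by
  unfold gS
  have h1 : Measurable fun z : E (m + 1) => ∏ j ∈ S, z j.succ ^ 2 :=
    Finset.measurable_prod _ fun j _ => (by fun_prop : Measurable fun z : E (m + 1) => z j.succ ^ 2)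
  exact (Complex.measurable_ofReal.comp h1).mul hg

lemma gS_norm (S : Finset (Fin m)) {M : ℝ} {g : E (m + 1) → ℂ} (hg : BS M g) (z : E (m + 1)) :
    ‖gS S g z‖ ≤ ‖g z‖ := by
  unfold gS
  by_cases hz : z ∈ cube (m + 1)
  · have h0 : 0 ≤ ∏ j ∈ S, z j.succ ^ 2 := Finset.prod_nonneg fun j _ => sq_nonneg _
    rw [norm_mul, Complex.norm_real, Real.norm_eq_abs, abs_of_nonneg h0]
    have h2 : ∏ j ∈ S, z j.succ ^ 2 ≤ 1 := by
      refine Finset.prod_le_one (fun j _ => sq_nonneg _) fun j _ => ?_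
      rw [← sq_abs]
      exact pow_le_one₀ (abs_nonneg _) (hz j.succ)
    calc (∏ j ∈ S, z j.succ ^ 2) * ‖g z‖ ≤ 1 * ‖g z‖ := by gcongr
      _ = ‖g z‖ := one_mul _
  · rw [hg.supp z hz, mul_zero]

lemma gS_BS (S : Finset (Fin m)) {M : ℝ} {g : E (m + 1) → ℂ} (hg : BS M g) : BS M (gS S g) := by
  refine ⟨gS_meas S hg.meas, fun z => (gS_norm S hg z).trans (hg.bd z), fun z hz => ?_⟩
  unfold gS
  rw [hg.supp z hz, mul_zero]

lemma gm_BS (j : Fin m) {M : ℝ} {g : E (m + 1) → ℂ} (hg : BS M g) : BS M (gm j g) := by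
  rw [← gS_sing]
  exact gS_BS _ hg

lemma gS_int (S : Finset (Fin m)) {M : ℝ} {g : E (m + 1) → ℂ} (hg : BS M g) :
    ∫⁻ z, ‖gS S g z‖ₑ ^ 4 ≤ ∫⁻ z, ‖g z‖ₑ ^ 4 := by
  apply lintegral_mono
  intro z
  apply pow_le_pow_left'
  rw [← ofReal_norm, ← ofReal_norm]
  exact ENNReal.ofReal_le_ofReal (gS_norm S hg z)

/-- the operator -/
noncomputable def u (t : ℝ) (l : Fin m → ℝ) (g : E (m + 1) → ℂ) (x : E (m + 1)) : ℂ :=
  𝓕 (ch (sv (t, l)) g) x

lemma phase_deriv (t : ℝ) (l : Fin m → ℝ) (j : Fin m) (s : ℝ) (z : E (m + 1)) :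
    HasDerivAt (fun s => ∑ i, sv (t, Function.update l j s) i * z i ^ 2) (t * z j.succ ^ 2) s := by
  simp only [sv_sum]
  have h1 : ∀ i ∈ (Finset.univ : Finset (Fin m)),
      HasDerivAt (fun s => t * Function.update l j s i * z i.succ ^ 2)
        (if i = j then t * z i.succ ^ 2 else 0) s := by
    intro i _
    by_cases hij : i = j
    · subst hij
      simp only [Function.update_self, if_true]
      have := ((hasDerivAt_id s).const_mul t).mul_const (z i.succ ^ 2)
      exact this.congr_deriv (by simp)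
    · simp only [Function.update_of_ne hij, if_neg hij]
      exact hasDerivAt_const _ _
  have h2 := HasDerivAt.fun_sum h1
  rw [Finset.sum_ite_eq' Finset.univ j] at h2
  simp only [Finset.mem_univ, if_true] at h2
  exact h2.const_add _

lemma ch_deriv (t : ℝ) (l : Fin m → ℝ) (j : Fin m) (s : ℝ) (g : E (m + 1) → ℂ) (z : E (m + 1)) :
    HasDerivAt (fun s => ch (sv (t, Function.update l j s)) g z)
      (((-(2 * Real.pi * t) : ℝ) : ℂ) * I * ch (sv (t, Function.update l j s)) (gm j g) z) s := by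
  have h1 : HasDerivAt (fun s : ℝ =>
      -(2 * Real.pi * ∑ i, sv (t, Function.update l j s) i * z i ^ 2))
      (-(2 * Real.pi * (t * z j.succ ^ 2))) s :=
    ((phase_deriv t l j s z).const_mul (2 * Real.pi)).neg
  have h3 : HasDerivAt (fun s : ℝ =>
      ((-(2 * Real.pi * ∑ i, sv (t, Function.update l j s) i * z i ^ 2) : ℝ) : ℂ) * I)
      (((-(2 * Real.pi * (t * z j.succ ^ 2)) : ℝ) : ℂ) * I) s := h1.ofReal_comp.mul_const I
  have h4 := h3.cexp.mul_const (g z)
  refine h4.congr_deriv ?_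
  simp only [ch, gm]
  push_cast
  ring

lemma u_deriv (t : ℝ) (l : Fin m → ℝ) (j : Fin m) (s : ℝ) {M : ℝ} {g : E (m + 1) → ℂ}
    (hg : BS M g) (x : E (m + 1)) :
    HasDerivAt (fun s => u t (Function.update l j s) g x)
      (((-(2 * Real.pi * t) : ℝ) : ℂ) * I * u t (Function.update l j s) (gm j g) x) s := by
  unfold u
  have hF : ∀ (c : ℂ) (h : E (m + 1) → ℂ) (x : E (m + 1)),
      𝓕 (fun z => c * h z) x = c * 𝓕 h x := by
    intro c h x
    simp only [Real.fourier_eq]
    rw [← integral_const_mul]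
    apply integral_congr_ae
    refine ae_of_all _ fun z => ?_
    simp only [Circle.smul_def, smul_eq_mul]
    ring
  rw [← hF]
  simp only [Real.fourier_eq]
  have hg2 := gm_BS j hg
  refine (hasDerivAt_integral_of_dominated_loc_of_deriv_le
    (F := fun s z => Real.fourierChar (-⟪z, x⟫) • ch (sv (t, Function.update l j s)) g z)
    (F' := fun s z => Real.fourierChar (-⟪z, x⟫) •
      (((-(2 * Real.pi * t) : ℝ) : ℂ) * I * ch (sv (t, Function.update l j s)) (gm j g) z))
    (s := univ) (bound := (cube (m + 1)).indicator fun _ => 2 * Real.pi * |t| * M)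
    Filter.univ_mem ?_ ?_ ?_ ?_ ?_ ?_).2
  · exact Filter.Eventually.of_forall fun y =>
      ((Real.fourierIntegral_convergent_iff (μ := volume) x).2 (hg.ch _).int).aestronglyMeasurable
  · exact (Real.fourierIntegral_convergent_iff (μ := volume) x).2 (hg.ch _).int
  · have := ((Real.fourierIntegral_convergent_iff (μ := volume) x).2
      ((hg2.ch (sv (t, Function.update l j s))).int.const_mul
        (((-(2 * Real.pi * t) : ℝ) : ℂ) * I)))
    exact this.aestronglyMeasurable
  · refine ae_of_all _ fun z y _ => ?_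
    rw [Circle.norm_smul, norm_mul, norm_mul, Complex.norm_I, mul_one, Complex.norm_real,
      ch_norm, Real.norm_eq_abs, abs_neg, abs_mul, abs_of_pos (by positivity : 0 < 2 * Real.pi)]
    by_cases hz : z ∈ cube (m + 1)
    · rw [indicator_of_mem hz]
      have := hg2.bd z
      have := Real.pi_pos
      gcongr
    · rw [indicator_of_notMem hz, hg2.supp z hz, norm_zero, mul_zero]
  · rw [integrable_indicator_iff (cube_meas (m + 1))]
    exact integrableOn_const (cube_vol (m + 1)).ne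
  · refine ae_of_all _ fun z y _ => ?_
    simp only [Circle.smul_def, smul_eq_mul]
    exact (ch_deriv t l j y g z).const_mul _

/-- the constant -/
noncomputable def cT (B : ℝ) : ℝ≥0∞ := 8 + 8 * ENNReal.ofReal (4 * Real.pi * B) ^ 4

lemma cT_lt (B : ℝ) : cT B < ⊤ := by
  unfold cT
  exact ENNReal.add_lt_top.2 ⟨by norm_num,
    ENNReal.mul_lt_top (by norm_num) (ENNReal.pow_lt_top ENNReal.ofReal_lt_top)⟩

lemma sob_u {t T M c d B : ℝ} (hcd : c ≤ d) (hdT : (d - c) * T ≤ B) (ht : |t| ≤ 2 * T)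
    {g : E (m + 1) → ℂ} (hg : BS M g) (x : E (m + 1)) (l : Fin m → ℝ) (j : Fin m)
    (hl : l j ∈ Icc c d) :
    ENNReal.ofReal (d - c) * ‖u t l g x‖ₑ ^ 4 ≤
      cT B * ∫⁻ s in Icc c d, (‖u t (Function.update l j s) g x‖ₑ ^ 4 +
        ‖u t (Function.update l j s) (gm j g) x‖ₑ ^ 4) := by
  have hg2 := gm_BS j hg
  have c0 : Continuous fun s => u t (Function.update l j s) g x :=
    continuous_iff_continuousAt.2 fun s => (u_deriv t l j s hg x).continuousAt
  have c1 : Continuous fun s => u t (Function.update l j s) (gm j g) x :=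
    continuous_iff_continuousAt.2 fun s => (u_deriv t l j s hg2 x).continuousAt
  have h1 := sob (c := c) (d := d) (fun s => u t (Function.update l j s) g x)
    (fun s => ((-(2 * Real.pi * t) : ℝ) : ℂ) * I * u t (Function.update l j s) (gm j g) x)
    (fun s _ => u_deriv t l j s hg x) (continuous_const.mul c1).continuousOn (l j) hl
  rw [Function.update_eq_self] at h1
  refine h1.trans ?_
  have m1 : Measurable fun s => ‖u t (Function.update l j s) (gm j g) x‖ₑ ^ 4 :=
    c1.measurable.enorm.pow_const 4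
  rw [lintegral_add_right _ m1]
  set I0 := ∫⁻ s in Icc c d, ‖u t (Function.update l j s) g x‖ₑ ^ 4 with hI0
  set I1 := ∫⁻ s in Icc c d, ‖u t (Function.update l j s) (gm j g) x‖ₑ ^ 4 with hI1
  have hd0 : 0 ≤ d - c := by linarith
  have e1 : ∀ s, ‖((-(2 * Real.pi * t) : ℝ) : ℂ) * I *
      u t (Function.update l j s) (gm j g) x‖ₑ ^ 4 =
      ENNReal.ofReal (2 * Real.pi * |t|) ^ 4 * ‖u t (Function.update l j s) (gm j g) x‖ₑ ^ 4 := by
    intro s
    rw [enorm_mul, mul_pow]
    congr 2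
    rw [← ofReal_norm, norm_mul, Complex.norm_I, mul_one, Complex.norm_real, Real.norm_eq_abs,
      abs_neg, abs_mul, abs_of_pos (by positivity : 0 < 2 * Real.pi)]
  simp only [e1]
  rw [lintegral_const_mul' _ _ (ENNReal.pow_ne_top ENNReal.ofReal_ne_top), ← hI1]
  have k1 : ENNReal.ofReal (d - c) ^ 4 * ENNReal.ofReal (2 * Real.pi * |t|) ^ 4 ≤
      ENNReal.ofReal (4 * Real.pi * B) ^ 4 := by
    rw [← mul_pow, ← ENNReal.ofReal_mul hd0]
    apply pow_le_pow_left'
    apply ENNReal.ofReal_le_ofReal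
    have hpi := Real.pi_pos
    have h2 : (d - c) * |t| ≤ 2 * B := by nlinarith
    nlinarith
  calc 8 * I0 + 8 * (ENNReal.ofReal (d - c) ^ 4 * (ENNReal.ofReal (2 * Real.pi * |t|) ^ 4 * I1))
      = 8 * I0 + 8 * ((ENNReal.ofReal (d - c) ^ 4 * ENNReal.ofReal (2 * Real.pi * |t|) ^ 4) *
          I1) := by
        ring
    _ ≤ 8 * I0 + 8 * (ENNReal.ofReal (4 * Real.pi * B) ^ 4 * I1) := by gcongr
    _ = 8 * I0 + (8 * ENNReal.ofReal (4 * Real.pi * B) ^ 4) * I1 := by ring
    _ ≤ cT B * I0 + cT B * I1 := by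
        have n0 : 8 ≤ cT B := by
          unfold cT
          exact le_self_add
        have n1 : 8 * ENNReal.ofReal (4 * Real.pi * B) ^ 4 ≤ cT B := by
          unfold cT
          exact le_add_self
        gcongr
    _ = cT B * (I0 + I1) := by ring

lemma u_meas {g : E (m + 1) → ℂ} (hg : Measurable g) :
    Measurable fun r : (ℝ × (Fin m → ℝ)) × E (m + 1) => u r.1.1 r.1.2 g r.2 := by
  unfold u
  exact meas_Fch (m := m) hg

lemma u_meas_l (t : ℝ) (x : E (m + 1)) {g : E (m + 1) → ℂ} (hg : Measurable g) :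
    Measurable fun l : Fin m → ℝ => u t l g x :=
  (u_meas hg).comp (f := fun l : Fin m → ℝ => (((t, l) : ℝ × (Fin m → ℝ)), x)) (by fun_prop)

/-- the sum of the fourth powers -/
noncomputable def JJ (t : ℝ) (s : Finset (Fin m)) (g : E (m + 1) → ℂ) (x : E (m + 1))
    (l : Fin m → ℝ) : ℝ≥0∞ := ∑ S ∈ s.powerset, ‖u t l (gS S g) x‖ₑ ^ 4

lemma JJ_meas (t : ℝ) (s : Finset (Fin m)) {g : E (m + 1) → ℂ} (hg : Measurable g)
    (x : E (m + 1)) : Measurable (JJ t s g x) := by
  unfold JJ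
  exact Finset.measurable_sum _ fun S _ => (u_meas_l t x (gS_meas S hg)).enorm.pow_const 4

lemma JJ_insert (t : ℝ) {j : Fin m} {s : Finset (Fin m)} (hj : j ∉ s) (g : E (m + 1) → ℂ)
    (x : E (m + 1)) (l : Fin m → ℝ) :
    JJ t (insert j s) g x l = JJ t s g x l + JJ t s (gm j g) x l := by
  unfold JJ
  rw [Finset.sum_powerset_insert hj]
  congr 1
  refine Finset.sum_congr rfl fun S hS => ?_
  rw [gS_insert]
  exact fun h => hj (Finset.mem_powerset.1 hS h)

/-- iterated Sobolev inequality -/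
lemma iter {t T M h B : ℝ} (hh : 0 ≤ h) (hhT : h * T ≤ B) (ht : |t| ≤ 2 * T) (x : E (m + 1))
    (a : Fin m → ℝ) (s : Finset (Fin m)) : ∀ g : E (m + 1) → ℂ, BS M g → ∀ l : Fin m → ℝ,
      (∀ j, l j ∈ Icc (a j) (a j + h)) →
      ENNReal.ofReal h ^ s.card * ‖u t l g x‖ₑ ^ 4 ≤ cT B ^ s.card *
        (∫⋯∫⁻_s, JJ t s g x ∂(fun j => (volume : Measure ℝ).restrict (Icc (a j) (a j + h)))) l := by
  induction s using Finset.induction_on with
  | empty =>
    intro g hg l hl
    simp [JJ, gS_empty]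
  | insert j s hj ih =>
    intro g hg l hl
    rw [Finset.card_insert_of_notMem hj, pow_succ, mul_assoc]
    have hg2 := gm_BS j hg
    have hlj : l j ∈ Icc (a j) (a j + h) := hl j
    have e0 : a j + h - a j = h := by ring
    have h1 := sob_u (c := a j) (d := a j + h) (B := B) (by linarith) (by rw [e0]; exact hhT) ht hg x l j hlj
    rw [e0] at h1
    set μ : Fin m → Measure ℝ := fun j => (volume : Measure ℝ).restrict (Icc (a j) (a j + h))
      with hμ
    have hupd : ∀ s ∈ Icc (a j) (a j + h), ∀ i, Function.update l j s i ∈ Icc (a i) (a i + h) := by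
      intro s hs i
      by_cases hij : i = j
      · subst hij
        rw [Function.update_self]
        exact hs
      · rw [Function.update_of_ne hij]
        exact hl i
    rw [lmarginal_insert _ (JJ_meas t _ hg.meas x) hj l]
    calc ENNReal.ofReal h ^ s.card * (ENNReal.ofReal h * ‖u t l g x‖ₑ ^ 4)
        ≤ ENNReal.ofReal h ^ s.card * (cT B * ∫⁻ ξ in Icc (a j) (a j + h),
          (‖u t (Function.update l j ξ) g x‖ₑ ^ 4 +
            ‖u t (Function.update l j ξ) (gm j g) x‖ₑ ^ 4)) := mul_le_mul' le_rfl h1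
      _ = cT B * ∫⁻ ξ in Icc (a j) (a j + h), (ENNReal.ofReal h ^ s.card *
          ‖u t (Function.update l j ξ) g x‖ₑ ^ 4 + ENNReal.ofReal h ^ s.card *
            ‖u t (Function.update l j ξ) (gm j g) x‖ₑ ^ 4) := by
          simp only [← mul_add]
          rw [lintegral_const_mul' _ _ (ENNReal.pow_ne_top ENNReal.ofReal_ne_top)]
          ring
      _ ≤ cT B * ∫⁻ ξ in Icc (a j) (a j + h), (cT B ^ s.card *
          (∫⋯∫⁻_s, JJ t (insert j s) g x ∂μ) (Function.update l j ξ)) := by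
          refine mul_le_mul' le_rfl (setLIntegral_mono' measurableSet_Icc fun ξ hξ => ?_)
          refine (add_le_add (ih g hg _ (hupd ξ hξ)) (ih _ hg2 _ (hupd ξ hξ))).trans ?_
          rw [← mul_add]
          refine mul_le_mul' le_rfl (le_of_eq ?_)
          have e1 : JJ t (insert j s) g x = fun l => JJ t s g x l + JJ t s (gm j g) x l := by
            ext l
            exact JJ_insert t hj g x l
          rw [e1]
          unfold lmarginal
          rw [lintegral_add_left]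
          exact (JJ_meas t s hg.meas x).comp measurable_updateFinset
      _ = _ := by
          rw [lintegral_const_mul' _ _ (ENNReal.pow_ne_top (cT_lt B).ne)]
          rw [pow_succ]
          ring

lemma box {t T M h B : ℝ} (hh : 0 ≤ h) (hhT : h * T ≤ B) (ht : |t| ≤ 2 * T) (x : E (m + 1))
    (a : Fin m → ℝ) {g : E (m + 1) → ℂ} (hg : BS M g) (l : Fin m → ℝ)
    (hl : l ∈ Icc a (fun j => a j + h)) :
    ENNReal.ofReal h ^ m * ‖u t l g x‖ₑ ^ 4 ≤ cT B ^ m *
      ∫⁻ l in Icc a (fun j => a j + h), JJ t Finset.univ g x l := by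
  have h1 := iter hh hhT ht x a Finset.univ g hg l (fun j => ⟨hl.1 j, hl.2 j⟩)
  rw [Finset.card_univ, Fintype.card_fin, lmarginal_univ] at h1
  have e : Measure.pi (fun j => (volume : Measure ℝ).restrict (Icc (a j) (a j + h))) =
      (volume : Measure (Fin m → ℝ)).restrict (Icc a (fun j => a j + h)) := by
    rw [← Measure.restrict_pi_pi, pi_univ_Icc]
    rfl
  rw [e] at h1
  exact h1

/-- fourth moment in space -/
noncomputable def R4 (t : ℝ) (l : Fin m → ℝ) (g : E (m + 1) → ℂ) : ℝ≥0∞ := ∫⁻ x, ‖u t l g x‖ₑ ^ 4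

/-- fourth moment over a dyadic block -/
noncomputable def D (T : ℝ) (l : Fin m → ℝ) (g : E (m + 1) → ℂ) : ℝ≥0∞ :=
  ∫⁻ t in ST T, R4 t l g

lemma R4_meas {g : E (m + 1) → ℂ} (hg : Measurable g) :
    Measurable fun r : ℝ × (Fin m → ℝ) => R4 r.1 r.2 g :=
  ((u_meas hg).enorm.pow_const 4).lintegral_prod_right'

lemma D_meas (T : ℝ) {g : E (m + 1) → ℂ} (hg : Measurable g) :
    Measurable fun l : Fin m → ℝ => D T l g := by
  have h : Measurable fun r : (Fin m → ℝ) × ℝ => R4 r.2 r.1 g :=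
    (R4_meas hg).comp (f := fun r : (Fin m → ℝ) × ℝ => (r.2, r.1)) (by fun_prop)
  exact h.lintegral_prod_right'

/-- the majorant -/
noncomputable def Z (T : ℝ) (l : Fin m → ℝ) (g : E (m + 1) → ℂ) : ℝ≥0∞ :=
  ∑ S ∈ (Finset.univ : Finset (Fin m)).powerset, D T l (gS S g)

lemma Z_meas (T : ℝ) {g : E (m + 1) → ℂ} (hg : Measurable g) :
    Measurable fun l : Fin m → ℝ => Z T l g := by
  unfold Z
  exact Finset.measurable_sum _ fun S _ => D_meas T (gS_meas S hg)

theorem D_loc {T M h B : ℝ} (hh : 0 ≤ h) (hhT : h * T ≤ B) {g : E (m + 1) → ℂ} (hg : BS M g)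
    (a l : Fin m → ℝ) (hl : l ∈ Icc a (fun j => a j + h)) :
    ENNReal.ofReal h ^ m * D T l g ≤ cT B ^ m * ∫⁻ s in Icc a (fun j => a j + h), Z T s g := by
  set Bx : Set (Fin m → ℝ) := Icc a (fun j => a j + h) with hBx
  set ν := ((volume : Measure ℝ).restrict (ST T)).prod (volume : Measure (E (m + 1))) with hν
  have hm1 : ∀ g : E (m + 1) → ℂ, Measurable g → ∀ l : Fin m → ℝ,
      Measurable fun p : ℝ × E (m + 1) => ‖u p.1 l g p.2‖ₑ ^ 4 := by
    intro g hg l
    exact ((u_meas hg).comp (f := fun p : ℝ × E (m + 1) =>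
      (((p.1, l) : ℝ × (Fin m → ℝ)), p.2)) (by fun_prop)).enorm.pow_const 4
  have hD : ∀ g : E (m + 1) → ℂ, Measurable g → ∀ l : Fin m → ℝ,
      D T l g = ∫⁻ p, ‖u p.1 l g p.2‖ₑ ^ 4 ∂ν := by
    intro g hg l
    rw [hν, lintegral_prod _ (hm1 g hg l).aemeasurable]
    rfl
  have hJm : Measurable fun r : (ℝ × E (m + 1)) × (Fin m → ℝ) =>
      JJ r.1.1 Finset.univ g r.1.2 r.2 := by
    unfold JJ
    refine Finset.measurable_sum _ fun S _ => ?_
    exact ((u_meas (gS_meas S hg.meas)).comp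
      (f := fun r : (ℝ × E (m + 1)) × (Fin m → ℝ) =>
        (((r.1.1, r.2) : ℝ × (Fin m → ℝ)), r.1.2)) (by fun_prop)).enorm.pow_const 4
  rw [hD g hg.meas l]
  calc ENNReal.ofReal h ^ m * ∫⁻ p, ‖u p.1 l g p.2‖ₑ ^ 4 ∂ν
      = ∫⁻ p, ENNReal.ofReal h ^ m * ‖u p.1 l g p.2‖ₑ ^ 4 ∂ν := by
        rw [lintegral_const_mul' _ _ (ENNReal.pow_ne_top ENNReal.ofReal_ne_top)]
    _ ≤ ∫⁻ p, cT B ^ m * (∫⁻ l in Bx, JJ p.1 Finset.univ g p.2 l) ∂ν := by
        have hae : ∀ᵐ p ∂ν, p.1 ∈ ST T := by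
          rw [hν]
          have h2 : (volume.restrict (ST T)).prod (volume : Measure (E (m + 1))) =
              (volume.prod volume).restrict (ST T ×ˢ univ) := by
            rw [← Measure.prod_restrict, Measure.restrict_univ]
          rw [h2]
          filter_upwards [ae_restrict_mem ((ST_meas T).prod MeasurableSet.univ)] with p hp
          exact hp.1
        apply lintegral_mono_ae
        filter_upwards [hae] with p hp
        exact box hh hhT hp.2 p.2 a hg l hl
    _ = cT B ^ m * ∫⁻ p, (∫⁻ l in Bx, JJ p.1 Finset.univ g p.2 l) ∂ν := by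
        rw [lintegral_const_mul' _ _ (ENNReal.pow_ne_top (cT_lt B).ne)]
    _ = cT B ^ m * ∫⁻ l in Bx, (∫⁻ p, JJ p.1 Finset.univ g p.2 l ∂ν) := by
        rw [lintegral_lintegral_swap]
        exact hJm.aemeasurable
    _ = _ := by
        congr 1
        apply lintegral_congr
        intro l
        unfold JJ Z
        rw [lintegral_finsetSum _ fun S _ => hm1 _ (gS_meas S hg.meas) l]
        exact Finset.sum_congr rfl fun S _ => (hD _ (gS_meas S hg.meas) l).symm

/-- the averaged bound -/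
theorem D_avg {β K : ℝ} (hβ0 : 0 ≤ β) (hβ1 : β ≤ 1) {T M : ℝ} (hT : 1 ≤ T) (hK : 1 ≤ K)
    {g : E (m + 1) → ℂ} (hg : BS M g) :
    ∫⁻ l in Icc (fun _ : Fin m => -K) (fun _ => K), D T l g ≤
      ENNReal.ofReal (KT m 1 m K T β) * J4 (m + 1) β * ∫⁻ z, ‖g z‖ₑ ^ 4 := by
  have hμ : ∀ (a : Fin m → ℝ) (r : ℝ), 0 < r → r ≤ 1 →
      (volume : Measure (Fin m → ℝ)) (Icc a (fun j => a j + r)) ≤
        ENNReal.ofReal (1 * r ^ (m : ℝ)) := by
    intro a r h0 h1
    rw [Real.volume_Icc_pi]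
    simp only [add_sub_cancel_left, Finset.prod_const, Finset.card_univ, Fintype.card_fin, one_mul]
    rw [← ENNReal.ofReal_pow h0.le, Real.rpow_natCast]
  have hb := block4s (m := m) volume 1 m K T β zero_le_one hK hT hμ hβ0 hβ1 hg
  refine le_trans (le_of_eq ?_) hb
  have hm : Measurable fun p : ℝ × (Fin m → ℝ) => ∫⁻ x, ‖𝓕 (ch (sv p) g) x‖ₑ ^ 4 :=
    ((meas_Fch (m := m) hg.meas).enorm.pow_const 4).lintegral_prod_right'
  rw [lintegral_prod_symm _ hm.aemeasurable]
  rfl

end Pool.Agent.W777.MF
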