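import Mathlib
import Pool.Agent.W777.MF.Loc
import Pool.Agent.W777.MF.Dim
import Pool.Agent.W777.ST.Exc
set_option autoImplicit false

/-! The exceptional stretchings in several parameters. -/

namespace Pool.Agent.W777.MF

open MeasureTheory Set Complex FourierTransform Filter
open scoped ENNReal NNReal RealInnerProductSpace Topology
open Pool.Agent.H153R4
open Pool.Agent.W777.DL (cover_ST)
open Pool.Agent.W777.ST (fk fk_meas fk_BS fk_int VV F_sum sum_pow geo_mean Kc Kc_pos geo_sum W W_ne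
  J4 J4_fin)

variable {m : ℕ}

/-- integral of the q-th power -/
noncomputable def GG (q : ℝ) (l : Fin m → ℝ) (S : Set ℝ) (g : E (m + 1) → ℂ) : ℝ≥0∞ :=
  ∫⁻ t in S, ∫⁻ x, ‖u t l g x‖ₑ ^ q

lemma FL_meas (l : Fin m → ℝ) {g : E (m + 1) → ℂ} (hg : Measurable g) :
    Measurable fun r : ℝ × E (m + 1) => u r.1 l g r.2 :=
  (u_meas hg).comp (f := fun r : ℝ × E (m + 1) => (((r.1, l) : ℝ × (Fin m → ℝ)), r.2))
    (by fun_prop)

lemma GG_interp {q T M : ℝ} {l : Fin m → ℝ} (hq2 : 2 ≤ q) (hq4 : q ≤ 4) (hT : 0 ≤ T)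
    {g : E (m + 1) → ℂ} (hg : BS M g) : GG q l (ST T) g ≤
      (ENNReal.ofReal (2 * T) * ∫⁻ z, ‖g z‖ₑ ^ 2) ^ ((4 - q) / 2) * D T l g ^ ((q - 2) / 2) := by
  have hm := (FL_meas l hg.meas).enorm
  have h := interp ((volume.restrict (ST T)).prod (volume : Measure (E (m + 1)))) _ hm q hq2 hq4
  rw [lintegral_prod _ (hm.pow_const q).aemeasurable,
    lintegral_prod _ (hm.pow_const 2).aemeasurable,
    lintegral_prod _ (hm.pow_const 4).aemeasurable] at h
  refine h.trans ?_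
  have e4 : ∫⁻ t in ST T, ∫⁻ x, ‖u t l g x‖ₑ ^ 4 = D T l g := rfl
  simp only
  rw [e4]
  refine mul_le_mul' (ENNReal.rpow_le_rpow ?_ (by linarith)) le_rfl
  have e2 : ∀ t, ∫⁻ x, ‖u t l g x‖ₑ ^ 2 = ∫⁻ z, ‖g z‖ₑ ^ 2 := fun t => two_ch hg (sv (t, l))
  simp only [e2]
  rw [lintegral_const, Measure.restrict_apply_univ, mul_comm]
  gcongr
  exact ST_vol T hT

lemma u_sup (t : ℝ) (l : Fin m → ℝ) (g : E (m + 1) → ℂ) (x : E (m + 1)) :
    ‖u t l g x‖ₑ ≤ ∫⁻ z, ‖g z‖ₑ := by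
  unfold u
  rw [Real.fourier_eq]
  refine (enorm_integral_le_lintegral_enorm _).trans (le_of_eq ?_)
  apply lintegral_congr
  intro z
  rw [← ofReal_norm, Circle.norm_smul, ofReal_norm, ch_enorm]

lemma GG_triv {q M : ℝ} {l : Fin m → ℝ} (hq2 : 2 ≤ q) (S : Set ℝ) {g : E (m + 1) → ℂ}
    (hg : BS M g) :
    GG q l S g ≤ (∫⁻ z, ‖g z‖ₑ) ^ (q - 2) * (volume S * ∫⁻ z, ‖g z‖ₑ ^ 2) := by
  have hpt : ∀ t, ∫⁻ x, ‖u t l g x‖ₑ ^ q ≤
      (∫⁻ z, ‖g z‖ₑ) ^ (q - 2) * ∫⁻ z, ‖g z‖ₑ ^ 2 := by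
    intro t
    have h2 : ∫⁻ x, ‖u t l g x‖ₑ ^ 2 = ∫⁻ z, ‖g z‖ₑ ^ 2 := two_ch hg (sv (t, l))
    rw [← h2, ← lintegral_const_mul]
    · apply lintegral_mono
      intro x
      simp only
      have e1 : ‖u t l g x‖ₑ ^ q = ‖u t l g x‖ₑ ^ (q - 2) * ‖u t l g x‖ₑ ^ 2 := by
        rw [← ENNReal.rpow_natCast, ← ENNReal.rpow_add_of_nonneg _ _ (by linarith) (by norm_num)]
        congr 1
        push_cast
        ring
      rw [e1]
      exact mul_le_mul' (ENNReal.rpow_le_rpow (u_sup t l g x) (by linarith)) le_rfl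
    · exact (((FL_meas l hg.meas).comp (f := fun x => (t, x)) (by fun_prop)).enorm).pow_const 2
  unfold GG
  refine (lintegral_mono hpt).trans (le_of_eq ?_)
  rw [lintegral_const, Measure.restrict_apply_univ]
  ring

/-- The real number inequality. -/
lemma real_ineq {v q γ δ η T X : ℝ} (hv : 0 < v) (hq2 : 2 < q)
    (hδ : δ = γ * ((q - 2) / 2) - (4 - q) / 2) (hδ0 : 0 < δ) (hη : η = δ / (2 * (1 + δ)))
    (hT : 0 < T) (hX : 1 ≤ X) :
    ((2 * T * (X ^ (2 - q) * v)) ^ ((4 - q) / 2) *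
      (X ^ (4 - q + η) * T ^ (-γ)) ^ ((q - 2) / 2)) ^ (1 - η) *
      ((X ^ (1 - q) * v) ^ (q - 2) * (2 * T * (X ^ (2 - q) * v))) ^ η ≤
      Kc v q η * T ^ (-(δ / 2)) * X ^ (-(3 / 2 * (η * (q - 2)))) := by
  have hX0 : 0 < X := by linarith
  have hη0 : 0 < η := by rw [hη]; positivity
  have hη1 : η < 1 := by
    rw [hη, div_lt_one (by positivity)]
    linarith
  have a1 : (2 * T * (X ^ (2 - q) * v)) ^ ((4 - q) / 2) =
      (2 * v) ^ ((4 - q) / 2) * T ^ ((4 - q) / 2) * X ^ ((2 - q) * ((4 - q) / 2)) := by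
    rw [show 2 * T * (X ^ (2 - q) * v) = (2 * v) * T * X ^ (2 - q) by ring,
      Real.mul_rpow (by positivity) (by positivity), Real.mul_rpow (by positivity) hT.le,
      ← Real.rpow_mul hX0.le]
  have a2 : (X ^ (4 - q + η) * T ^ (-γ)) ^ ((q - 2) / 2) =
      X ^ ((4 - q + η) * ((q - 2) / 2)) * T ^ (-γ * ((q - 2) / 2)) := by
    rw [Real.mul_rpow (by positivity) (by positivity), ← Real.rpow_mul hX0.le,
      ← Real.rpow_mul hT.le]
  have a3 : (2 * T * (X ^ (2 - q) * v)) ^ ((4 - q) / 2) *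
      (X ^ (4 - q + η) * T ^ (-γ)) ^ ((q - 2) / 2) =
      (2 * v) ^ ((4 - q) / 2) * T ^ (-δ) * X ^ (η * ((q - 2) / 2)) := by
    rw [a1, a2]
    have b1 : T ^ (-δ) = T ^ ((4 - q) / 2) * T ^ (-γ * ((q - 2) / 2)) := by
      rw [← Real.rpow_add hT]
      congr 1
      rw [hδ]
      ring
    have b2 : X ^ (η * ((q - 2) / 2)) = X ^ ((2 - q) * ((4 - q) / 2)) *
        X ^ ((4 - q + η) * ((q - 2) / 2)) := by
      rw [← Real.rpow_add hX0]
      congr 1
      ring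
    rw [b1, b2]
    ring
  have a4 : (X ^ (1 - q) * v) ^ (q - 2) * (2 * T * (X ^ (2 - q) * v)) =
      (2 * v ^ (q - 1)) * T * X ^ (-(q * (q - 2))) := by
    rw [Real.mul_rpow (by positivity) hv.le, ← Real.rpow_mul hX0.le]
    have b1 : v ^ (q - 1) = v ^ (q - 2) * v := by
      rw [show q - 1 = (q - 2) + 1 by ring, Real.rpow_add hv, Real.rpow_one]
    have b2 : X ^ (-(q * (q - 2))) = X ^ ((1 - q) * (q - 2)) * X ^ (2 - q) := by
      rw [← Real.rpow_add hX0]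
      congr 1
      ring
    rw [b1, b2]
    ring
  rw [a3, a4]
  have c1 : ((2 * v) ^ ((4 - q) / 2) * T ^ (-δ) * X ^ (η * ((q - 2) / 2))) ^ (1 - η) =
      ((2 * v) ^ ((4 - q) / 2)) ^ (1 - η) * T ^ (-δ * (1 - η)) *
        X ^ (η * ((q - 2) / 2) * (1 - η)) := by
    rw [Real.mul_rpow (by positivity) (by positivity), Real.mul_rpow (by positivity)
      (by positivity), ← Real.rpow_mul hT.le, ← Real.rpow_mul hX0.le]
  have c2 : ((2 * v ^ (q - 1)) * T * X ^ (-(q * (q - 2)))) ^ η =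
      (2 * v ^ (q - 1)) ^ η * T ^ η * X ^ (-(q * (q - 2)) * η) := by
    rw [Real.mul_rpow (by positivity) (by positivity), Real.mul_rpow (by positivity) hT.le,
      ← Real.rpow_mul hX0.le]
  rw [c1, c2]
  have c3 : T ^ (-δ * (1 - η)) * T ^ η = T ^ (-(δ / 2)) := by
    rw [← Real.rpow_add hT]
    congr 1
    rw [hη]
    field_simp
    ring
  have c4 : X ^ (η * ((q - 2) / 2) * (1 - η)) * X ^ (-(q * (q - 2)) * η) ≤
      X ^ (-(3 / 2 * (η * (q - 2)))) := by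
    rw [← Real.rpow_add hX0]
    apply Real.rpow_le_rpow_of_exponent_le hX
    have h2 : 0 ≤ η * (q - 2) := mul_nonneg hη0.le (by linarith)
    have h3 : (1 - η) / 2 - q ≤ -(3 / 2) := by linarith
    have h4 : η * (q - 2) * ((1 - η) / 2 - q) ≤ η * (q - 2) * (-(3 / 2)) :=
      mul_le_mul_of_nonneg_left h3 h2
    calc η * ((q - 2) / 2) * (1 - η) + -(q * (q - 2)) * η = η * (q - 2) * ((1 - η) / 2 - q) := by
          ring
      _ ≤ η * (q - 2) * (-(3 / 2)) := h4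
      _ = _ := by ring
  calc ((2 * v) ^ ((4 - q) / 2)) ^ (1 - η) * T ^ (-δ * (1 - η)) *
        X ^ (η * ((q - 2) / 2) * (1 - η)) *
        ((2 * v ^ (q - 1)) ^ η * T ^ η * X ^ (-(q * (q - 2)) * η))
      = Kc v q η * (T ^ (-δ * (1 - η)) * T ^ η) *
        (X ^ (η * ((q - 2) / 2) * (1 - η)) * X ^ (-(q * (q - 2)) * η)) := by
        unfold Kc
        ring
    _ ≤ _ := by
        rw [c3]
        have := (Kc_pos hv q η).le
        gcongr

/-- the splitting into level sets -/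
lemma GG_sum {q c : ℝ} (hq : 1 < q) (hc : 0 < c) : ∃ C : ℝ≥0∞, C < ⊤ ∧
    ∀ (f : E (m + 1) → ℂ), Measurable f → (∀ z, z ∉ cube (m + 1) → f z = 0) → VV q f ≠ ⊤ →
      ∀ (l : Fin m → ℝ) (S : Set ℝ), GG q l S f ≤
        C * ∑' k, ENNReal.ofReal (((2:ℝ) ^ k) ^ c) * GG q l S (fk f k) := by
  obtain ⟨C, hC, h⟩ := sum_pow q c hq hc
  refine ⟨C, hC, fun f hf hs hV l S => ?_⟩
  have hm : ∀ k, Measurable fun r : ℝ × E (m + 1) => ‖u r.1 l (fk f k) r.2‖ₑ ^ q :=
    fun k => (FL_meas l (fk_meas hf k)).enorm.pow_const q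
  have hm2 : ∀ k, Measurable fun t => ∫⁻ x, ‖u t l (fk f k) x‖ₑ ^ q :=
    fun k => (hm k).lintegral_prod_right'
  have hm3 : ∀ k (t : ℝ), Measurable fun x => ‖u t l (fk f k) x‖ₑ ^ q :=
    fun k t => (hm k).comp (f := fun x => (t, x)) (by fun_prop)
  have hpt : ∀ (t : ℝ) (x : E (m + 1)), ‖u t l f x‖ₑ ^ q ≤
      C * ∑' k, ENNReal.ofReal (((2:ℝ) ^ k) ^ c) * ‖u t l (fk f k) x‖ₑ ^ q := by
    intro t x
    exact (ENNReal.rpow_le_rpow (F_sum hf hs hq hV (sv (t, l)) x) (by linarith)).trans (h _)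
  have hin : ∀ t, ∫⁻ x, ‖u t l f x‖ₑ ^ q ≤
      C * ∑' k, ENNReal.ofReal (((2:ℝ) ^ k) ^ c) * ∫⁻ x, ‖u t l (fk f k) x‖ₑ ^ q := by
    intro t
    refine (lintegral_mono (hpt t)).trans (le_of_eq ?_)
    rw [lintegral_const_mul' _ _ hC.ne, lintegral_tsum fun k =>
      ((hm3 k t).const_mul _).aemeasurable]
    congr 1
    apply tsum_congr
    intro k
    rw [lintegral_const_mul' _ _ ENNReal.ofReal_ne_top]
  unfold GG
  refine (lintegral_mono hin).trans (le_of_eq ?_)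
  rw [lintegral_const_mul' _ _ hC.ne, lintegral_tsum fun k =>
      ((hm2 k).const_mul _).aemeasurable]
  congr 1
  apply tsum_congr
  intro k
  rw [lintegral_const_mul' _ _ ENNReal.ofReal_ne_top]

/-- the weighted sum of the fourth moments -/
noncomputable def DD (q ε : ℝ) (f : E (m + 1) → ℂ) (T : ℝ) (l : Fin m → ℝ) : ℝ≥0∞ :=
  ∑' k, W q ε k * D T l (fk f k)

/-- the weighted sum of the majorants -/
noncomputable def ZZ (q ε : ℝ) (f : E (m + 1) → ℂ) (T : ℝ) (l : Fin m → ℝ) : ℝ≥0∞ :=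
  ∑' k, W q ε k * Z T l (fk f k)

theorem DD_loc {q ε T h B : ℝ} (hh : 0 ≤ h) (hhT : h * T ≤ B) {f : E (m + 1) → ℂ}
    (hf : Measurable f) (hs : ∀ z, z ∉ cube (m + 1) → f z = 0) (a l : Fin m → ℝ)
    (hl : l ∈ Icc a (fun j => a j + h)) :
    ENNReal.ofReal h ^ m * DD q ε f T l ≤
      cT B ^ m * ∫⁻ s in Icc a (fun j => a j + h), ZZ q ε f T s := by
  unfold DD ZZ
  rw [lintegral_tsum fun k => ((Z_meas T (fk_meas hf k)).const_mul _).aemeasurable,
    ← ENNReal.tsum_mul_left, ← ENNReal.tsum_mul_left]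
  apply ENNReal.tsum_le_tsum
  intro k
  rw [lintegral_const_mul' _ _ (W_ne q ε k)]
  have h := D_loc hh hhT (fk_BS hf hs k) a l hl
  calc ENNReal.ofReal _ ^ m * (W q ε k * D T l (fk f k)) =
        W q ε k * (ENNReal.ofReal _ ^ m * D T l (fk f k)) := by ring
    _ ≤ W q ε k * (cT B ^ m * ∫⁻ s in Icc a (fun j => a j + _), Z T s (fk f k)) :=
        mul_le_mul' le_rfl h
    _ = _ := by ring

theorem ZZ_avg {q ε β K : ℝ} (hε : 0 < ε) (hβ0 : 0 < β) (hβ1 : β ≤ 1) (hq : 0 ≤ q) (hK : 1 ≤ K) :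
    ∃ C : ℝ≥0∞, C < ⊤ ∧ ∀ (f : E (m + 1) → ℂ), Measurable f →
      (∀ z, z ∉ cube (m + 1) → f z = 0) → ∀ T : ℝ, 1 ≤ T →
        ∫⁻ l in Icc (fun _ : Fin m => -K) (fun _ => K), ZZ q ε f T l ≤
          C * VV q f * ENNReal.ofReal (T ^ ((m + 1) * β - m)) := by
  have hcL : 0 < cL K := by unfold cL; positivity
  set c0 : ℝ≥0∞ := (((Finset.univ : Finset (Fin m)).powerset.card : ℕ) : ℝ≥0∞) with hc0
  refine ⟨c0 * ENNReal.ofReal (2 * cL K ^ m) * J4 (m + 1) β *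
      ∑' k : ℕ, ENNReal.ofReal (((2:ℝ) ^ k) ^ (-ε)), ?_, fun f hf hs T hT => ?_⟩
  · exact ENNReal.mul_lt_top (ENNReal.mul_lt_top (ENNReal.mul_lt_top (by simp [hc0])
      ENNReal.ofReal_lt_top) (J4_fin (m + 1) β hβ0)) (geo_sum (by linarith))
  have hT0 : 0 < T := by linarith
  have hKT : KT m 1 m K T β = 2 * cL K ^ m * T ^ ((m + 1) * β - m) := by
    unfold KT
    rw [mul_pow]
    have e1 : T ^ ((m + 1) * β - m) = T ^ β * T ^ (-(m : ℝ)) * (T ^ β) ^ m := by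
      rw [← Real.rpow_natCast (T ^ β) m, ← Real.rpow_mul hT0.le, ← Real.rpow_add hT0,
        ← Real.rpow_add hT0]
      congr 1
      ring
    rw [e1]
    ring
  unfold ZZ
  rw [lintegral_tsum fun k => ((Z_meas T (fk_meas hf k)).const_mul _).aemeasurable]
  have hk : ∀ k, ∫⁻ l in Icc (fun _ : Fin m => -K) (fun _ => K), W q ε k * Z T l (fk f k) ≤
      ENNReal.ofReal (((2:ℝ) ^ k) ^ (-ε)) * (c0 * ENNReal.ofReal (2 * cL K ^ m) *
        J4 (m + 1) β * VV q f * ENNReal.ofReal (T ^ ((m + 1) * β - m))) := by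
    intro k
    have hBS := fk_BS hf hs k
    have h4 : ∫⁻ z, ‖fk f k z‖ₑ ^ 4 ≤ ENNReal.ofReal (((2:ℝ) ^ k) ^ (4 - q)) * VV q f := by
      have := fk_int hs hq 4 (by norm_num) k
      push_cast at this
      exact this
    have hZ : ∫⁻ l in Icc (fun _ : Fin m => -K) (fun _ => K), Z T l (fk f k) ≤
        c0 * (ENNReal.ofReal (KT m 1 m K T β) * J4 (m + 1) β * ∫⁻ z, ‖fk f k z‖ₑ ^ 4) := by
      unfold Z
      rw [lintegral_finsetSum _ fun S _ => D_meas T (gS_meas S hBS.meas), hc0,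
        ← nsmul_eq_mul, ← Finset.sum_const]
      refine Finset.sum_le_sum fun S _ => ?_
      refine (D_avg hβ0.le hβ1 hT hK (gS_BS S hBS)).trans ?_
      exact mul_le_mul' le_rfl (gS_int S hBS)
    rw [lintegral_const_mul' _ _ (W_ne q ε k)]
    have hW : W q ε k * ENNReal.ofReal (((2:ℝ) ^ k) ^ (4 - q)) =
        ENNReal.ofReal (((2:ℝ) ^ k) ^ (-ε)) := by
      unfold W
      rw [← ENNReal.ofReal_mul (by positivity), ← Real.rpow_add (by positivity)]
      congr 2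
      ring
    calc W q ε k * ∫⁻ l in Icc (fun _ : Fin m => -K) (fun _ => K), Z T l (fk f k)
        ≤ W q ε k * (c0 * (ENNReal.ofReal (KT m 1 m K T β) * J4 (m + 1) β *
          (ENNReal.ofReal (((2:ℝ) ^ k) ^ (4 - q)) * VV q f))) :=
          mul_le_mul' le_rfl (hZ.trans (mul_le_mul' le_rfl (mul_le_mul' le_rfl h4)))
      _ = (W q ε k * ENNReal.ofReal (((2:ℝ) ^ k) ^ (4 - q))) *
          (c0 * ENNReal.ofReal (KT m 1 m K T β) * J4 (m + 1) β * VV q f) := by ring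
      _ = _ := by
          rw [hW, hKT, ENNReal.ofReal_mul (by positivity)]
          ring
  refine (ENNReal.tsum_le_tsum hk).trans (le_of_eq ?_)
  rw [ENNReal.tsum_mul_right]
  ring

/-- integrability at good parameters -/
theorem good_fin {q γ δ η : ℝ} {l : Fin m → ℝ} (hq2 : 2 < q) (hq4 : q ≤ 4)
    (hδ : δ = γ * ((q - 2) / 2) - (4 - q) / 2) (hδ0 : 0 < δ) (hη : η = δ / (2 * (1 + δ)))
    {f : E (m + 1) → ℂ} (hf : Measurable f) (hs : ∀ z, z ∉ cube (m + 1) → f z = 0)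
    (hV : VV q f ≠ ⊤)
    (hD : ∀ᶠ j : ℕ in atTop, DD q η f ((2 ^ j : ℕ) : ℝ) l ≤
      ENNReal.ofReal (((2 ^ j : ℕ) : ℝ) ^ (-γ))) : GG q l univ f < ⊤ := by
  have hη0 : 0 < η := by rw [hη]; positivity
  have hη1 : η < 1 / 2 := by
    rw [hη, div_lt_div_iff₀ (by positivity) (by norm_num)]
    linarith
  set κ : ℝ := η * (q - 2) with hκ
  have hκ0 : 0 < κ := mul_pos hη0 (by linarith)
  obtain ⟨C, hC, hsum⟩ := GG_sum (m := m) (q := q) (c := κ) (by linarith) hκ0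
  obtain ⟨J, hJ⟩ := eventually_atTop.1 hD
  set v : ℝ := (VV q f).toReal + 1 with hv
  have hv0 : 0 < v := by
    have : 0 ≤ (VV q f).toReal := ENNReal.toReal_nonneg
    linarith
  have hVv : VV q f ≤ ENNReal.ofReal v := by
    rw [hv, ← ENNReal.ofReal_toReal hV]
    apply ENNReal.ofReal_le_ofReal
    rw [ENNReal.toReal_ofReal ENNReal.toReal_nonneg]
    linarith
  have hX : ∀ k : ℕ, (1:ℝ) ≤ (2:ℝ) ^ k := fun k => one_le_pow₀ (by norm_num)
  have m1 : ∀ k, ∫⁻ z, ‖fk f k z‖ₑ ≤ ENNReal.ofReal (((2:ℝ) ^ k) ^ (1 - q) * v) := by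
    intro k
    have h := fk_int hs (by linarith : 0 ≤ q) 1 one_pos k
    simp only [pow_one] at h
    push_cast at h
    rw [ENNReal.ofReal_mul (by positivity)]
    exact h.trans (mul_le_mul' le_rfl hVv)
  have m2 : ∀ k, ∫⁻ z, ‖fk f k z‖ₑ ^ 2 ≤ ENNReal.ofReal (((2:ℝ) ^ k) ^ (2 - q) * v) := by
    intro k
    have h := fk_int hs (by linarith : 0 ≤ q) 2 two_pos k
    push_cast at h
    rw [ENNReal.ofReal_mul (by positivity)]
    exact h.trans (mul_le_mul' le_rfl hVv)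
  -- the trivial bound
  have hB : ∀ (k : ℕ) (τ : ℝ) (S : Set ℝ), 0 < τ → volume S ≤ ENNReal.ofReal (2 * τ) →
      GG q l S (fk f k) ≤ ENNReal.ofReal ((((2:ℝ) ^ k) ^ (1 - q) * v) ^ (q - 2) *
        (2 * τ * (((2:ℝ) ^ k) ^ (2 - q) * v))) := by
    intro k τ S hτ hS
    refine (GG_triv (by linarith) S (fk_BS hf hs k)).trans ?_
    rw [ENNReal.ofReal_mul (by positivity), ← ENNReal.ofReal_rpow_of_nonneg (by positivity)
      (by linarith), ENNReal.ofReal_mul (p := 2 * τ) (by positivity)]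
    exact mul_le_mul' (ENNReal.rpow_le_rpow (m1 k) (by linarith)) (mul_le_mul' hS (m2 k))
  -- finiteness for sets of finite measure
  have hfin : ∀ (τ : ℝ) (S : Set ℝ), 0 < τ → volume S ≤ ENNReal.ofReal (2 * τ) →
      GG q l S f < ⊤ := by
    intro τ S hτ hS
    refine lt_of_le_of_lt (hsum f hf hs hV l S) (ENNReal.mul_lt_top hC ?_)
    have hk : ∀ k : ℕ, ENNReal.ofReal (((2:ℝ) ^ k) ^ κ) * GG q l S (fk f k) ≤
        ENNReal.ofReal (((2:ℝ) ^ k) ^ (-(q - 2))) * ENNReal.ofReal (2 * τ * v ^ (q - 1)) := by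
      intro k
      refine (mul_le_mul' le_rfl (hB k τ S hτ hS)).trans ?_
      rw [← ENNReal.ofReal_mul (by positivity), ← ENNReal.ofReal_mul (by positivity)]
      apply ENNReal.ofReal_le_ofReal
      set X : ℝ := (2:ℝ) ^ k with hXd
      have hX0 : 0 < X := by positivity
      have b1 : v ^ (q - 1) = v ^ (q - 2) * v := by
        rw [show q - 1 = (q - 2) + 1 by ring, Real.rpow_add hv0, Real.rpow_one]
      have e1 : X ^ κ * ((X ^ (1 - q) * v) ^ (q - 2) * (2 * τ * (X ^ (2 - q) * v))) =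
          X ^ (κ - q * (q - 2)) * (2 * τ * v ^ (q - 1)) := by
        rw [Real.mul_rpow (by positivity) hv0.le, ← Real.rpow_mul hX0.le, b1]
        have b2 : X ^ (κ - q * (q - 2)) = X ^ κ * X ^ ((1 - q) * (q - 2)) * X ^ (2 - q) := by
          rw [← Real.rpow_add hX0, ← Real.rpow_add hX0]
          congr 1
          ring
        rw [b2]
        ring
      rw [e1]
      have e2 : X ^ (κ - q * (q - 2)) ≤ X ^ (-(q - 2)) := by
        apply Real.rpow_le_rpow_of_exponent_le (hX k)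
        rw [hκ]
        nlinarith
      have : 0 ≤ 2 * τ * v ^ (q - 1) := by positivity
      gcongr
    refine lt_of_le_of_lt (ENNReal.tsum_le_tsum hk) ?_
    rw [ENNReal.tsum_mul_right]
    exact ENNReal.mul_lt_top (geo_sum (by linarith)) ENNReal.ofReal_lt_top
  -- the geometric bound
  set G : ℝ≥0∞ := C * (ENNReal.ofReal (Kc v q η) *
    ∑' k : ℕ, ENNReal.ofReal (((2:ℝ) ^ k) ^ (-(κ / 2)))) with hG
  have hGt : G < ⊤ := ENNReal.mul_lt_top hC (ENNReal.mul_lt_top ENNReal.ofReal_lt_top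
    (geo_sum (by linarith)))
  have hgeo : ∀ j, J ≤ j → GG q l (ST ((2 ^ j : ℕ) : ℝ)) f ≤
      G * ENNReal.ofReal (((2:ℝ) ^ j) ^ (-(δ / 2))) := by
    intro j hj
    have hTj : ((2 ^ j : ℕ) : ℝ) = (2:ℝ) ^ j := by push_cast; rfl
    have hDj := hJ j hj
    rw [hTj] at hDj ⊢
    set T : ℝ := (2:ℝ) ^ j with hT
    have hT0 : 0 < T := by positivity
    refine (hsum f hf hs hV l (ST T)).trans ?_
    have hk : ∀ k : ℕ, ENNReal.ofReal (((2:ℝ) ^ k) ^ κ) * GG q l (ST T) (fk f k) ≤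
        ENNReal.ofReal (((2:ℝ) ^ k) ^ (-(κ / 2))) * (ENNReal.ofReal (Kc v q η) *
          ENNReal.ofReal (T ^ (-(δ / 2)))) := by
      intro k
      set X : ℝ := (2:ℝ) ^ k with hXd
      have hX0 : 0 < X := by positivity
      have hDk : D T l (fk f k) ≤ ENNReal.ofReal (X ^ (4 - q + η) * T ^ (-γ)) := by
        have h1 : W q η k * D T l (fk f k) ≤ ENNReal.ofReal (T ^ (-γ)) :=
          (ENNReal.le_tsum k).trans hDj
        have h2 : ENNReal.ofReal (X ^ (4 - q + η)) * W q η k = 1 := by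
          unfold W
          rw [← ENNReal.ofReal_mul (by positivity), ← hXd, ← Real.rpow_add hX0, add_neg_cancel,
            Real.rpow_zero, ENNReal.ofReal_one]
        calc D T l (fk f k) = ENNReal.ofReal (X ^ (4 - q + η)) * (W q η k * D T l (fk f k)) := by
              rw [← mul_assoc, h2, one_mul]
          _ ≤ ENNReal.ofReal (X ^ (4 - q + η)) * ENNReal.ofReal (T ^ (-γ)) := by gcongr
          _ = _ := (ENNReal.ofReal_mul (by positivity)).symm
      have hA : GG q l (ST T) (fk f k) ≤ ENNReal.ofReal ((2 * T * (X ^ (2 - q) * v)) ^ ((4 - q) / 2) *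
          (X ^ (4 - q + η) * T ^ (-γ)) ^ ((q - 2) / 2)) := by
        refine (GG_interp (by linarith) hq4 hT0.le (fk_BS hf hs k)).trans ?_
        rw [ENNReal.ofReal_mul (p := (2 * T * (X ^ (2 - q) * v)) ^ ((4 - q) / 2)) (by positivity),
          ← ENNReal.ofReal_rpow_of_nonneg (x := 2 * T * (X ^ (2 - q) * v)) (by positivity)
          (by linarith), ← ENNReal.ofReal_rpow_of_nonneg (x := X ^ (4 - q + η) * T ^ (-γ))
          (by positivity) (by linarith), ENNReal.ofReal_mul (p := 2 * T) (by positivity)]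
        exact mul_le_mul' (ENNReal.rpow_le_rpow (mul_le_mul' le_rfl (m2 k)) (by linarith))
          (ENNReal.rpow_le_rpow hDk (by linarith))
      have hBk := hB k T (ST T) hT0 (ST_vol T hT0.le)
      have hN := geo_mean (by positivity) (by positivity) hη0.le (by linarith) hA hBk
      have hR := real_ineq hv0 hq2 hδ hδ0 hη hT0 (hX k)
      refine (mul_le_mul' le_rfl (hN.trans (ENNReal.ofReal_le_ofReal hR))).trans (le_of_eq ?_)
      have hK := (Kc_pos hv0 q η).le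
      rw [← ENNReal.ofReal_mul (by positivity), ← ENNReal.ofReal_mul hK,
        ← ENNReal.ofReal_mul (by positivity)]
      congr 1
      have e3 : X ^ (-(κ / 2)) = X ^ κ * X ^ (-(3 / 2 * (η * (q - 2)))) := by
        rw [← Real.rpow_add hX0]
        congr 1
        rw [hκ]
        ring
      rw [e3, ← hXd]
      ring
    refine (mul_le_mul' le_rfl (ENNReal.tsum_le_tsum hk)).trans (le_of_eq ?_)
    rw [ENNReal.tsum_mul_right, hG]
    ring
  -- summation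
  have hsum2 : ∑' j : ℕ, GG q l (ST ((2 ^ j : ℕ) : ℝ)) f < ⊤ := by
    have h1 : ∀ j : ℕ, GG q l (ST ((2 ^ j : ℕ) : ℝ)) f ≤
        (if j ∈ Finset.range J then GG q l (ST ((2 ^ j : ℕ) : ℝ)) f else 0) +
          G * ENNReal.ofReal (((2:ℝ) ^ j) ^ (-(δ / 2))) := by
      intro j
      by_cases hj : j ∈ Finset.range J
      · rw [if_pos hj]
        exact le_self_add
      · rw [if_neg hj, zero_add]
        exact hgeo j (by simpa using hj)
    refine lt_of_le_of_lt (ENNReal.tsum_le_tsum h1) ?_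
    rw [ENNReal.tsum_add]
    refine ENNReal.add_lt_top.2 ⟨?_, ?_⟩
    · rw [tsum_eq_sum (s := Finset.range J) (fun j hj => if_neg hj)]
      refine ENNReal.sum_lt_top.2 fun j hj => ?_
      rw [if_pos hj]
      exact hfin ((2 ^ j : ℕ) : ℝ) _ (by positivity) (ST_vol _ (by positivity))
    · rw [ENNReal.tsum_mul_left]
      exact ENNReal.mul_lt_top hGt (geo_sum (by linarith))
  have h2 : GG q l univ f ≤ GG q l (Icc (-1) 1) f +
      ∑' j : ℕ, GG q l (ST ((2 ^ j : ℕ) : ℝ)) f := by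
    unfold GG
    refine (lintegral_mono_set cover_ST).trans ?_
    refine (lintegral_union_le _ _ _).trans ?_
    gcongr
    exact lintegral_iUnion_le _ _
  refine lt_of_le_of_lt h2 (ENNReal.add_lt_top.2 ⟨?_, hsum2⟩)
  apply hfin 1 _ one_pos
  rw [Real.volume_Icc]
  norm_num

theorem exc_l {q K : ℝ} (hK : 1 ≤ K) (hq2 : 2 < q) (hq4 : q ≤ 4) {f : E (m + 1) → ℂ}
    (hf : Measurable f) (hs : ∀ z, z ∉ cube (m + 1) → f z = 0) (hV : VV q f ≠ ⊤) :
    dimH {l ∈ Icc (fun _ : Fin m => -K) (fun _ => K) | GG q l univ f = ⊤} ≤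
      ENNReal.ofReal ((4 - q) / (q - 2)) := by
  have hg0 : 0 ≤ (4 - q) / (q - 2) := div_nonneg (by linarith) (by linarith)
  have hm1 : (0:ℝ) < m + 1 := by positivity
  have hK0 : 0 < K := by linarith
  have key : ∀ γ e : ℝ, (4 - q) / (q - 2) < γ → 0 < e → e < 1 →
      dimH {l ∈ Icc (fun _ : Fin m => -K) (fun _ => K) | GG q l univ f = ⊤} ≤
        ENNReal.ofReal (γ + e) := by
    intro γ e hγ he0 he1
    set δ : ℝ := γ * ((q - 2) / 2) - (4 - q) / 2 with hδ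
    have hδ0 : 0 < δ := by
      rw [div_lt_iff₀ (by linarith)] at hγ
      rw [hδ]
      linarith
    set η : ℝ := δ / (2 * (1 + δ)) with hη
    have hη0 : 0 < η := by positivity
    have hβ1 : e / (m + 1) ≤ 1 := by
      rw [div_le_one hm1]
      have : (0:ℝ) ≤ m := Nat.cast_nonneg m
      linarith
    obtain ⟨C, hC, h⟩ := ZZ_avg (m := m) (q := q) (ε := η) (β := e / (m + 1)) (K := K) hη0
      (by positivity) hβ1 (by linarith) hK
    have e1 : ((m : ℝ) + 1) * (e / (m + 1)) - m = e - m := by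
      field_simp
    rw [e1] at h
    have hdb := dim_bound (m := m) (c := -K) (w := 2 * K) (by linarith)
      (fun j l => DD q η f ((2 ^ j : ℕ) : ℝ) l) (fun j l => ZZ q η f ((2 ^ j : ℕ) : ℝ) l)
      (cT (2 * K) ^ m) (C * VV q f) (ENNReal.pow_ne_top (cT_lt _).ne)
      (ENNReal.mul_ne_top hC.ne hV) γ e (by linarith) ?_ ?_
    · refine le_trans (dimH_mono ?_) hdb
      have e3 : -K + 2 * K = K := by ring
      rw [e3]
      rintro l ⟨hl, hT⟩
      refine ⟨hl, ?_⟩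
      by_contra hcon
      rw [not_frequently] at hcon
      simp only [not_lt] at hcon
      have := good_fin hq2 hq4 hδ hδ0 hη hf hs hV hcon
      exact absurd hT this.ne
    · intro j a l hl
      have hN0 : (0:ℝ) < ((2 ^ j : ℕ) : ℝ) := by positivity
      refine DD_loc (by positivity) (le_of_eq ?_) hf hs a l hl
      field_simp
    · intro j
      have hN1 : (1:ℝ) ≤ ((2 ^ j : ℕ) : ℝ) := by exact_mod_cast Nat.one_le_two_pow
      have e3 : -K + 2 * K = K := by ring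
      rw [e3]
      exact h f hf hs _ hN1
  refine ENNReal.le_of_forall_pos_le_add fun ε hε _ => ?_
  have hε' : (0:ℝ) < ε := hε
  set κ : ℝ := min (ε : ℝ) 1 / 4 with hκ
  have hκ0 : 0 < κ := by
    rw [hκ]
    have : 0 < min (ε : ℝ) 1 := lt_min hε' one_pos
    positivity
  have hκ1 : κ < 1 := by
    rw [hκ]
    have : min (ε : ℝ) 1 ≤ 1 := min_le_right _ _
    linarith
  have hκ2 : κ + κ ≤ ε := by
    rw [hκ]
    have : min (ε : ℝ) 1 ≤ ε := min_le_left _ _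
    linarith
  refine (key ((4 - q) / (q - 2) + κ) κ (by linarith) hκ0 hκ1).trans ?_
  rw [add_assoc, ENNReal.ofReal_add hg0 (by linarith)]
  gcongr
  rw [← ENNReal.ofReal_coe_nnreal]
  exact ENNReal.ofReal_le_ofReal hκ2

lemma GG_mono {q p : ℝ} {l : Fin m → ℝ} (hq : 0 ≤ q) (hqp : q ≤ p) (S : Set ℝ)
    {g : E (m + 1) → ℂ} (hg : ∫⁻ z, ‖g z‖ₑ ≠ ⊤) :
    GG p l S g ≤ (∫⁻ z, ‖g z‖ₑ) ^ (p - q) * GG q l S g := by
  have hf1 : (∫⁻ z, ‖g z‖ₑ) ^ (p - q) ≠ ⊤ := ENNReal.rpow_ne_top_of_nonneg (by linarith) hg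
  unfold GG
  rw [← lintegral_const_mul' _ _ hf1]
  apply lintegral_mono
  intro t
  simp only
  rw [← lintegral_const_mul' _ _ hf1]
  apply lintegral_mono
  intro x
  simp only
  have hsup := u_sup t l g x
  have e1 : ‖u t l g x‖ₑ ^ p = ‖u t l g x‖ₑ ^ (p - q) * ‖u t l g x‖ₑ ^ q := by
    rw [← ENNReal.rpow_add_of_nonneg _ _ (by linarith) hq]
    congr 1
    ring
  rw [e1]
  exact mul_le_mul' (ENNReal.rpow_le_rpow hsup (by linarith)) le_rfl

lemma VV_fin {q : ℝ} (hq : 0 < q) {f : E (m + 1) → ℂ} (hf : MemLp f (ENNReal.ofReal q) volume) :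
    VV q f ≠ ⊤ := by
  unfold VV
  refine ENNReal.add_ne_top.2 ⟨ENNReal.mul_ne_top ENNReal.ofReal_ne_top ?_, ?_⟩
  · have h := hf.2
    rw [eLpNorm_lt_top_iff_lintegral_rpow_enorm_lt_top (ENNReal.ofReal_pos.2 hq).ne'
      ENNReal.ofReal_ne_top, ENNReal.toReal_ofReal hq.le] at h
    exact h.ne
  · exact (cube_vol (m + 1)).ne

theorem exc_l_all {q K : ℝ} (hK : 1 ≤ K) (hq2 : 2 < q) {f : E (m + 1) → ℂ} (hf : Measurable f)
    (hs : ∀ z, z ∉ cube (m + 1) → f z = 0) (hL : MemLp f (ENNReal.ofReal q) volume) :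
    dimH {l ∈ Icc (fun _ : Fin m => -K) (fun _ => K) | GG q l univ f = ⊤} ≤
      ENNReal.ofReal ((4 - q) / (q - 2)) := by
  rcases le_or_gt q 4 with h4 | h4
  · exact exc_l hK hq2 h4 hf hs (VV_fin (by linarith) hL)
  have h0 : ENNReal.ofReal ((4 - q) / (q - 2)) = 0 := by
    rw [ENNReal.ofReal_eq_zero]
    exact div_nonpos_of_nonpos_of_nonneg (by linarith) (by linarith)
  rw [h0]
  have hfin : volume (cube (m + 1)) ≠ ⊤ := (cube_vol (m + 1)).ne
  have hmem : ∀ p : ℝ≥0∞, p ≤ ENNReal.ofReal q → MemLp f p volume := fun p hp =>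
    hL.mono_exponent_of_measure_support_ne_top (s := cube (m + 1)) hs hfin hp
  have hL4 : MemLp f (ENNReal.ofReal 4) volume := hmem _ (ENNReal.ofReal_le_ofReal h4.le)
  have hL1 : ∫⁻ z, ‖f z‖ₑ ≠ ⊤ := by
    have h1 := hmem 1 (by
      rw [← ENNReal.ofReal_one]
      exact ENNReal.ofReal_le_ofReal (by linarith))
    have h2 := h1.2
    rw [eLpNorm_one_eq_lintegral_enorm] at h2
    exact h2.ne
  have h5 := exc_l (q := 4) hK (by norm_num) le_rfl hf hs (VV_fin (by norm_num) hL4)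
  have h6 : ENNReal.ofReal ((4 - 4) / (4 - 2)) = 0 := by norm_num
  rw [h6] at h5
  refine le_trans (dimH_mono ?_) h5
  rintro l ⟨hl, hT⟩
  refine ⟨hl, ?_⟩
  have h7 := GG_mono (l := l) (q := 4) (p := q) (by norm_num) h4.le univ hL1
  rw [hT, top_le_iff] at h7
  by_contra hcon
  have h8 : (∫⁻ z, ‖f z‖ₑ) ^ (q - 4) ≠ ⊤ :=
    ENNReal.rpow_ne_top_of_nonneg (by linarith) hL1
  exact absurd h7 (ENNReal.mul_ne_top h8 hcon)

end Pool.Agent.W777.MF
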