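import Mathlib
import Pool.Agent.W777.MF.Exc
import Pool.Agent.Results.MP_b7167f_an.AveragedDilates
set_option autoImplicit false

/-! The exceptional dilates. -/

namespace Pool.Agent.W777.MF

open MeasureTheory Set Complex FourierTransform Filter
open scoped ENNReal NNReal Topology
open Pool.Agent.H153R4
open Pool.Agent.Results.MP_b7167f_an.AveragedDilates (ext dilate ext_dil)

variable {m : ℕ}

/-- a good representative -/
lemma good_rep {q : ℝ} (f : (Fin (m + 1) → ℝ) → ℂ)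
    (hf : MemLp f (ENNReal.ofReal q) (volume.restrict (Icc (-1) 1))) :
    ∃ g : (Fin (m + 1) → ℝ) → ℂ, Measurable g ∧
      (∀ ξ, ξ ∉ Icc (-1 : Fin (m + 1) → ℝ) 1 → g ξ = 0) ∧
      (Icc (-1) 1).indicator f =ᵐ[volume] g ∧ MemLp g (ENNReal.ofReal q) volume := by
  set g := (Icc (-1 : Fin (m + 1) → ℝ) 1).indicator (hf.1.mk f) with hg
  have h1 : (Icc (-1) 1).indicator f =ᵐ[volume] g := by
    have h2 := (ae_restrict_iff' measurableSet_Icc).1 hf.1.ae_eq_mk
    filter_upwards [h2] with x hx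
    by_cases hb : x ∈ Icc (-1 : Fin (m + 1) → ℝ) 1
    · rw [hg, indicator_of_mem hb, indicator_of_mem hb, hx hb]
    · rw [hg, indicator_of_notMem hb, indicator_of_notMem hb]
  refine ⟨g, (hf.1.stronglyMeasurable_mk.measurable).indicator measurableSet_Icc,
    fun z hz => indicator_of_notMem hz _, h1, ?_⟩
  exact ((memLp_indicator_iff_restrict measurableSet_Icc).2 hf).ae_eq h1

lemma rho_anti (b : Fin m → ℝ) (hb : ∀ j, b j ≠ 0) (L : ℝ) (hL : 1 ≤ L)
    {l l' : Fin m → ℝ} (hl : l ∈ Icc (fun _ => (1 : ℝ)) (fun _ => L))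
    (hl' : l' ∈ Icc (fun _ => (1 : ℝ)) (fun _ => L)) :
    dist l l' ≤ ((∑ j, |b j|⁻¹) * L ^ 4) * dist (rho b l) (rho b l') := by
  have hB : ∀ j, |b j|⁻¹ ≤ ∑ j, |b j|⁻¹ := fun j =>
    Finset.single_le_sum (f := fun j => |b j|⁻¹) (fun i _ => by positivity) (Finset.mem_univ j)
  have h0 : 0 ≤ ∑ j, |b j|⁻¹ := Finset.sum_nonneg fun _ _ => by positivity
  rw [dist_pi_le_iff (by positivity)]
  intro j
  have h1 : |b j / l j ^ 2 - b j / l' j ^ 2| ≤ dist (rho b l) (rho b l') := by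
    have := dist_le_pi_dist (rho b l) (rho b l') j
    rw [Real.dist_eq] at this
    exact this
  have h2 := one_dim_lip (b j) (l j) (l' j) L (hb j) (hl.1 j) (hl'.1 j) (hl.2 j) (hl'.2 j) _ h1
  rw [Real.dist_eq]
  refine h2.trans ?_
  rw [div_eq_mul_inv]
  have h3 : L ^ 4 * dist (rho b l) (rho b l') * |b j|⁻¹ ≤
      L ^ 4 * dist (rho b l) (rho b l') * ∑ j, |b j|⁻¹ :=
    mul_le_mul_of_nonneg_left (hB j) (by positivity)
  calc _ ≤ _ := h3
    _ = _ := by ring

lemma dim_pre (b : Fin m → ℝ) (hb : ∀ j, b j ≠ 0) (L : ℝ) (hL : 1 ≤ L) (Y : Set (Fin m → ℝ)) :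
    dimH {l ∈ Icc (fun _ : Fin m => (1 : ℝ)) (fun _ => L) | rho b l ∈ Y} ≤ dimH Y := by
  set A : Set (Fin m → ℝ) := Icc (fun _ => (1 : ℝ)) (fun _ => L) with hA
  set φ : A → (Fin m → ℝ) := fun x => rho b x with hφ
  have h0 : 0 ≤ (∑ j, |b j|⁻¹) * L ^ 4 :=
    mul_nonneg (Finset.sum_nonneg fun _ _ => by positivity) (by positivity)
  have hanti : AntilipschitzWith (Real.toNNReal ((∑ j, |b j|⁻¹) * L ^ 4)) φ := by
    apply AntilipschitzWith.of_le_mul_dist
    intro x y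
    rw [Real.coe_toNNReal _ h0]
    exact rho_anti b hb L hL x.2 y.2
  set S : Set A := {x | rho b x ∈ Y} with hS
  have e1 : {l ∈ A | rho b l ∈ Y} = Subtype.val '' S := by
    ext l
    constructor
    · rintro ⟨h1, h2⟩
      exact ⟨⟨l, h1⟩, h2, rfl⟩
    · rintro ⟨x, hx, rfl⟩
      exact ⟨x.2, hx⟩
  rw [e1, (isometry_subtype_coe (s := A)).dimH_image S]
  refine (hanti.le_dimH_image S).trans (dimH_mono ?_)
  rintro _ ⟨x, hx, rfl⟩
  exact hx

lemma FF_eq (q : ℝ) (G : E (m + 1) → ℂ) (l : Fin m → ℝ) : FF q G l = GG q l univ G := by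
  unfold FF GG
  rw [Measure.restrict_univ]
  rfl

lemma ext0_memLp {q : ℝ} (hq : 1 ≤ q) (c : Fin (m + 1) → ℝ) (hc : ∀ j, c j ≠ 0) (l : Fin m → ℝ)
    (hl : ∀ j, 1 ≤ l j) {g : (Fin (m + 1) → ℝ) → ℂ} (hg : Measurable g)
    (hG : GG q (rho (fun j => c j.succ / c 0) l) univ (fun z : E (m + 1) => g z.ofLp) ≠ ⊤) :
    MemLp (ext0 c (fun ξ => g (dv l * ξ))) (ENNReal.ofReal q) volume := by
  have hq0 : 0 < q := by linarith
  have hm : Measurable fun ξ : Fin (m + 1) → ℝ => g (dv l * ξ) := hg.comp (by fun_prop)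
  refine ⟨(ext0_meas c hm).aestronglyMeasurable, ?_⟩
  rw [eLpNorm_lt_top_iff_lintegral_rpow_enorm_lt_top (ENNReal.ofReal_pos.2 hq0).ne'
    ENNReal.ofReal_ne_top, ENNReal.toReal_ofReal hq0.le]
  refine lt_of_le_of_lt (key_le c (hc 0) q hq l hl hg) ?_
  rw [FF_eq]
  exact ENNReal.mul_lt_top ENNReal.ofReal_lt_top hG.lt_top

theorem exc_dim {q : ℝ} (hq2 : 2 < q) (c : Fin (m + 1) → ℝ) (hc : ∀ j, c j ≠ 0)
    (f : (Fin (m + 1) → ℝ) → ℂ)
    (hf : MemLp f (ENNReal.ofReal q) (volume.restrict (Icc (-1) 1))) :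
    dimH {l : Fin m → ℝ | (∀ j, 1 ≤ l j) ∧
      ¬ MemLp (ext c (dilate l f)) (ENNReal.ofReal q) volume} ≤
        ENNReal.ofReal ((4 - q) / (q - 2)) := by
  obtain ⟨g, hgm, hgs, hfg, hgL⟩ := good_rep f hf
  set b : Fin m → ℝ := fun j => c j.succ / c 0 with hb
  have hb0 : ∀ j, b j ≠ 0 := fun j => div_ne_zero (hc _) (hc 0)
  set K : ℝ := max 1 (∑ j, |b j|) with hK
  have hK1 : 1 ≤ K := le_max_left _ _
  have hKj : ∀ j, |b j| ≤ K := fun j =>
    (Finset.single_le_sum (f := fun j => |b j|) (fun i _ => abs_nonneg _)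
      (Finset.mem_univ j)).trans (le_max_right _ _)
  set G : E (m + 1) → ℂ := fun z => g z.ofLp with hG
  have hGm : Measurable G := hgm.comp (emb_ofLp (m + 1)).measurable
  have hGs : ∀ z : E (m + 1), z ∉ cube (m + 1) → G z = 0 := by
    intro z hz
    refine hgs _ fun h => hz fun j => ?_
    rw [abs_le]
    exact ⟨h.1 j, h.2 j⟩
  have hGL : MemLp G (ENNReal.ofReal q) volume :=
    hgL.comp_measurePreserving (PiLp.volume_preserving_ofLp (Fin (m + 1)))
  set Y : Set (Fin m → ℝ) := {l ∈ Icc (fun _ : Fin m => -K) (fun _ => K) | GG q l univ G = ⊤}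
    with hY
  have hYd := exc_l_all hK1 hq2 hGm hGs hGL
  have hsub : {l : Fin m → ℝ | (∀ j, 1 ≤ l j) ∧
      ¬ MemLp (ext c (dilate l f)) (ENNReal.ofReal q) volume} ⊆
      ⋃ N : ℕ, {l ∈ Icc (fun _ : Fin m => (1 : ℝ)) (fun _ => (N : ℝ) + 1) | rho b l ∈ Y} := by
    rintro l ⟨hl, hT⟩
    obtain ⟨N, hN⟩ := exists_nat_ge (∑ j, l j)
    refine mem_iUnion.2 ⟨N, ⟨⟨fun j => hl j, fun j => ?_⟩, ⟨?_, ?_⟩, ?_⟩⟩
    · have h1 : l j ≤ ∑ j, l j := Finset.single_le_sum
        (f := fun j => l j) (fun i _ => by linarith [hl i]) (Finset.mem_univ j)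
      linarith
    · intro j
      have h2 : |rho b l j| ≤ K := by
        unfold rho
        rw [abs_div, abs_of_nonneg (by positivity : (0 : ℝ) ≤ l j ^ 2)]
        refine (div_le_self (abs_nonneg _) ?_).trans (hKj j)
        have := hl j
        nlinarith
      exact (abs_le.1 h2).1
    · intro j
      have h2 : |rho b l j| ≤ K := by
        unfold rho
        rw [abs_div, abs_of_nonneg (by positivity : (0 : ℝ) ≤ l j ^ 2)]
        refine (div_le_self (abs_nonneg _) ?_).trans (hKj j)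
        have := hl j
        nlinarith
      exact (abs_le.1 h2).2
    · by_contra hcon
      apply hT
      have e1 : ext c (dilate l f) = ext0 c (fun ξ => g (dv l * ξ)) := by
        ext y
        exact ext_dil c l hl f g hgs hfg y
      rw [e1]
      exact ext0_memLp (by linarith) c hc l hl hgm hcon
  refine (dimH_mono hsub).trans ?_
  rw [dimH_iUnion]
  refine iSup_le fun N => ?_
  exact (dim_pre b hb0 ((N : ℝ) + 1) (by have : (0:ℝ) ≤ N := Nat.cast_nonneg N; linarith) Y).trans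
    hYd

theorem ae_of_dim {S : Set (Fin m → ℝ)} (hS : dimH S < m) : volume S = 0 := by
  have h1 := hausdorffMeasure_of_dimH_lt (s := S) (d := (m : ℝ≥0)) (by simpa using hS)
  have h2 := hausdorffMeasure_pi_real (ι := Fin m)
  rw [Fintype.card_fin] at h2
  rw [← h2]
  simpa using h1

end Pool.Agent.W777.MF
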