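import Mathlib
import Pool.Agent.H153R4.Chg
import Pool.Agent.W777.ST.AvQ
set_option autoImplicit false

/-! The averaged estimate from `L^q` to `L^q` over anisotropic dilates, in all dimensions. -/

namespace Pool.Agent.W777.MF

open MeasureTheory Set Complex
open scoped ENNReal NNReal FourierTransform
open Pool.Agent.H153R4

theorem avg_Lq (m : ℕ) (c : Fin (m + 1) → ℝ) (hc : ∀ j, c j ≠ 0) (α q L A : ℝ) (hα : 0 < α)
    (hq : 2 + 2 / (1 + α) < q) :
    ∃ C : ℝ≥0∞, C < ⊤ ∧ ∀ μ : Measure (Fin m → ℝ), Frost μ A α →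
      ∀ g : (Fin (m + 1) → ℝ) → ℂ, Measurable g →
        (∀ ξ, ξ ∉ Icc (-1 : Fin (m + 1) → ℝ) 1 → g ξ = 0) → ∫⁻ ξ, ‖g ξ‖ₑ ^ q ≠ ⊤ →
        ∫⁻ l in Icc (fun _ => 1) (fun _ => L),
            (∫⁻ y : (Fin (m + 1) → ℝ) × ℝ, ‖ext0 c (fun ξ => g (dv l * ξ)) y‖ₑ ^ q) ∂μ ≤
          C * ∫⁻ ξ, ‖g ξ‖ₑ ^ q := by
  set b : Fin m → ℝ := fun j => c j.succ / c 0 with hb
  have hb0 : ∀ j, b j ≠ 0 := fun j => div_ne_zero (hc _) (hc 0)
  set L' : ℝ := max L 1 with hL'
  have hL1 : 1 ≤ L' := le_max_right _ _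
  set A' : ℝ := max A 1 with hA'
  have hA0 : 0 < A' := lt_of_lt_of_le one_pos (le_max_right _ _)
  set B : ℝ := ∑ j, |b j|⁻¹ with hB
  have hBj : ∀ j, |b j|⁻¹ ≤ B := fun j =>
    Finset.single_le_sum (f := fun j => |b j|⁻¹) (fun i _ => by positivity) (Finset.mem_univ j)
  set K : ℝ := max 1 (∑ j, |b j|) with hK
  have hK1 : 1 ≤ K := le_max_left _ _
  have hKj : ∀ j, |b j| ≤ K := fun j =>
    (Finset.single_le_sum (f := fun j => |b j|) (fun i _ => abs_nonneg _)
      (Finset.mem_univ j)).trans (le_max_right _ _)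
  set A2 : ℝ := (⌊2 * (B * L' ^ 4)⌋₊ + 1 : ℝ) ^ m * A' with hA2
  have hA20 : 0 < A2 := by positivity
  obtain ⟨C0, hC0, hmain⟩ := Pool.Agent.W777.ST.main_L m α q hα hq K A2 hK1 hA20
  have hq1 : 1 ≤ q := by
    have : 0 < 2 / (1 + α) := by positivity
    linarith
  refine ⟨ENNReal.ofReal |(c 0)⁻¹| * C0, ENNReal.mul_lt_top ENNReal.ofReal_lt_top hC0,
    fun μ hμ g hgm hgs hgf => ?_⟩
  have hμ' : Frost μ A' α := by
    intro a r h0 h1
    refine (hμ a r h0 h1).trans (ENNReal.ofReal_le_ofReal ?_)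
    gcongr
    exact le_max_left _ _
  have := hμ'.locfin
  have hGmeas : Measurable fun z : E (m + 1) => g z.ofLp :=
    hgm.comp (emb_ofLp (m + 1)).measurable
  have hGs : ∀ z : E (m + 1), z ∉ cube (m + 1) → g z.ofLp = 0 := by
    intro z hz
    refine hgs _ fun h => hz fun j => ?_
    rw [abs_le]
    exact ⟨h.1 j, h.2 j⟩
  have hGint : ∫⁻ z : E (m + 1), ‖g z.ofLp‖ₑ ^ q = ∫⁻ ξ, ‖g ξ‖ₑ ^ q :=
    (PiLp.volume_preserving_ofLp (Fin (m + 1))).lintegral_comp (f := fun ξ => ‖g ξ‖ₑ ^ q)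
      (hgm.enorm.pow_const q)
  have hGm : Measurable fun p : (Fin m → ℝ) × ℝ =>
      ∫⁻ x, ‖𝓕 (ch (sv (p.2, p.1)) (fun z : E (m + 1) => g z.ofLp)) x‖ₑ ^ q :=
    (G_meas q hGmeas).comp measurable_swap
  have hFm : Measurable (FF q (fun z : E (m + 1) => g z.ofLp)) := hGm.lintegral_prod_right'
  set ν : Measure (Fin m → ℝ) :=
    Measure.map (rho b) (μ.restrict (Icc (fun _ => 1) (fun _ => L'))) with hν
  have hνF : Frost ν A2 α := hμ'.push L' B hL1 b hb0 hBj
  have hνl := hνF.locfin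
  have hmain' := hmain ν hνF _ hGmeas hGs (by rw [hGint]; exact hgf)
  rw [hGint] at hmain'
  calc ∫⁻ l in Icc (fun _ => 1) (fun _ => L),
            (∫⁻ y : (Fin (m + 1) → ℝ) × ℝ, ‖ext0 c (fun ξ => g (dv l * ξ)) y‖ₑ ^ q) ∂μ
      ≤ ∫⁻ l in Icc (fun _ => 1) (fun _ => L'),
            (∫⁻ y : (Fin (m + 1) → ℝ) × ℝ, ‖ext0 c (fun ξ => g (dv l * ξ)) y‖ₑ ^ q) ∂μ := by
        apply lintegral_mono_set
        apply Icc_subset_Icc le_rfl
        intro j
        exact le_max_left _ _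
    _ ≤ ∫⁻ l in Icc (fun _ => 1) (fun _ => L'), ENNReal.ofReal |(c 0)⁻¹| *
          (Icc (fun _ => -K) (fun _ => K)).indicator
            (FF q (fun z : E (m + 1) => g z.ofLp)) (rho b l) ∂μ := by
        apply setLIntegral_mono' measurableSet_Icc
        intro l hl
        have hl1 : ∀ j, 1 ≤ l j := fun j => hl.1 j
        have hmem : rho b l ∈ Icc (fun _ : Fin m => -K) (fun _ => K) := by
          have : ∀ j, |rho b l j| ≤ K := by
            intro j
            unfold rho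
            rw [abs_div, abs_of_nonneg (by positivity : (0 : ℝ) ≤ l j ^ 2)]
            refine (div_le_self (abs_nonneg _) ?_).trans (hKj j)
            have := hl1 j
            nlinarith
          exact ⟨fun j => (abs_le.1 (this j)).1, fun j => (abs_le.1 (this j)).2⟩
        rw [indicator_of_mem hmem]
        exact key_le c (hc 0) q hq1 l hl1 hgm
    _ = ENNReal.ofReal |(c 0)⁻¹| * ∫⁻ l in Icc (fun _ => 1) (fun _ => L'),
          (Icc (fun _ => -K) (fun _ => K)).indicator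
            (FF q (fun z : E (m + 1) => g z.ofLp)) (rho b l) ∂μ := by
        rw [lintegral_const_mul]
        exact (hFm.indicator measurableSet_Icc).comp (rho_meas b)
    _ = ENNReal.ofReal |(c 0)⁻¹| * ∫⁻ x,
          (Icc (fun _ => -K) (fun _ => K)).indicator
            (FF q (fun z : E (m + 1) => g z.ofLp)) x ∂ν := by
        rw [hν, lintegral_map (hFm.indicator measurableSet_Icc) (rho_meas b)]
    _ = ENNReal.ofReal |(c 0)⁻¹| * II ν K q univ (fun z : E (m + 1) => g z.ofLp) := by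
        congr 1
        rw [lintegral_indicator measurableSet_Icc, II_eq ν K q univ hGmeas,
          Measure.restrict_univ]
        unfold FF HH
        rw [lintegral_lintegral_swap]
        exact hGm.aemeasurable
    _ ≤ ENNReal.ofReal |(c 0)⁻¹| * (C0 * ∫⁻ ξ, ‖g ξ‖ₑ ^ q) := by gcongr
    _ = _ := by rw [mul_assoc]

end Pool.Agent.W777.MF
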