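import Mathlib
import Pool.Agent.W777.MF.A
import Pool.Agent.W777.MF.B1
set_option autoImplicit false

/-! Functions which are semi-invariant under a hyperplane of logarithmic dilations. -/

namespace Pool.Agent.W777.MF

open MeasureTheory Set Complex
open scoped ENNReal NNReal
open Pool.Agent.H153R4

variable {m : ℕ}

/-- semi-invariance under all positive diagonal `v` with `∑ a_j log v_j = 0` -/
def SI (a : Fin (m + 1) → ℝ) (h : (Fin (m + 1) → ℝ) → ℂ) : Prop :=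
  ∀ v : Fin (m + 1) → ℝ, (∀ j, 0 < v j) → ∑ j, a j * Real.log (v j) = 0 →
    ∃ χ : ℂ, ‖χ‖ = 1 ∧ ∀ᵐ ξ : Fin (m + 1) → ℝ, h (v * ξ) = χ * h ξ

/-- total weight -/
noncomputable def PP (a : Fin (m + 1) → ℝ) : ℝ := ∑ j : Fin m, |a j.succ| / |∑ i, a i|

lemma PP_nonneg (a : Fin (m + 1) → ℝ) : 0 ≤ PP a :=
  Finset.sum_nonneg fun _ _ => by positivity

/-- side length -/
noncomputable def LL (a : Fin (m + 1) → ℝ) : ℝ := Real.exp (Real.log 2 / (PP a + 1))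

lemma LL_gt (a : Fin (m + 1) → ℝ) : 1 < LL a := by
  unfold LL
  rw [Real.one_lt_exp_iff]
  have := PP_nonneg a
  have := Real.log_pos one_lt_two
  positivity

/-- logarithm of the correcting dilation -/
noncomputable def tt (a : Fin (m + 1) → ℝ) (l : Fin m → ℝ) : ℝ :=
  -(∑ j, a j.succ * Real.log (l j)) / ∑ i, a i

lemma log_l {a : Fin (m + 1) → ℝ} {l : Fin m → ℝ}
    (hl : l ∈ Icc (fun _ => (1 : ℝ)) (fun _ => LL a)) (j : Fin m) :
    0 ≤ Real.log (l j) ∧ Real.log (l j) ≤ Real.log 2 / (PP a + 1) := by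
  have h1 : 1 ≤ l j := hl.1 j
  have h2 : l j ≤ LL a := hl.2 j
  refine ⟨Real.log_nonneg h1, ?_⟩
  rw [Real.log_le_iff_le_exp (by linarith)]
  exact h2

lemma tt_le {a : Fin (m + 1) → ℝ} {l : Fin m → ℝ}
    (hl : l ∈ Icc (fun _ => (1 : ℝ)) (fun _ => LL a)) :
    |tt a l| ≤ PP a * (Real.log 2 / (PP a + 1)) := by
  unfold tt
  rw [abs_div, abs_neg]
  have h1 : |∑ j, a j.succ * Real.log (l j)| ≤
      ∑ j : Fin m, |a j.succ| * (Real.log 2 / (PP a + 1)) := by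
    refine (Finset.abs_sum_le_sum_abs _ _).trans (Finset.sum_le_sum fun j _ => ?_)
    rw [abs_mul, abs_of_nonneg (log_l hl j).1]
    exact mul_le_mul_of_nonneg_left (log_l hl j).2 (abs_nonneg _)
  calc |∑ j, a j.succ * Real.log (l j)| / |∑ i, a i|
      ≤ (∑ j : Fin m, |a j.succ| * (Real.log 2 / (PP a + 1))) / |∑ i, a i| := by gcongr
    _ = PP a * (Real.log 2 / (PP a + 1)) := by
        nth_rewrite 2 [PP]
        rw [← Finset.sum_mul, ← Finset.sum_div]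
        ring

lemma tt_bd {a : Fin (m + 1) → ℝ} {l : Fin m → ℝ}
    (hl : l ∈ Icc (fun _ => (1 : ℝ)) (fun _ => LL a)) :
    Real.exp (tt a l) ≤ 2 ∧ 1 / 2 ≤ Real.exp (tt a l) ∧ ∀ j, Real.exp (tt a l) * l j ≤ 2 := by
  have h0 := PP_nonneg a
  have h1 := tt_le hl
  have h2 := Real.log_pos one_lt_two
  have h3 : PP a * (Real.log 2 / (PP a + 1)) + Real.log 2 / (PP a + 1) = Real.log 2 := by
    field_simp
  have h4 : 0 ≤ Real.log 2 / (PP a + 1) := by positivity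
  rw [abs_le] at h1
  refine ⟨?_, ?_, fun j => ?_⟩
  · calc Real.exp (tt a l) ≤ Real.exp (Real.log 2) := Real.exp_le_exp.2 (by linarith)
      _ = 2 := Real.exp_log two_pos
  · calc (1 / 2 : ℝ) = Real.exp (-Real.log 2) := by
          rw [Real.exp_neg, Real.exp_log two_pos, one_div]
      _ ≤ Real.exp (tt a l) := Real.exp_le_exp.2 (by linarith)
  · have h5 : 1 ≤ l j := hl.1 j
    have h6 := (log_l hl j).2
    calc Real.exp (tt a l) * l j = Real.exp (tt a l + Real.log (l j)) := by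
          rw [Real.exp_add, Real.exp_log (by linarith)]
      _ ≤ Real.exp (Real.log 2) := Real.exp_le_exp.2 (by linarith)
      _ = 2 := Real.exp_log two_pos

lemma tt_inv {a : Fin (m + 1) → ℝ} (ha : ∑ j, a j ≠ 0) {l : Fin m → ℝ}
    (hl : l ∈ Icc (fun _ => (1 : ℝ)) (fun _ => LL a)) :
    ∑ j, a j * Real.log ((Real.exp (tt a l) • dv l) j) = 0 := by
  have hd : ∀ j, 0 < dv l j := by
    intro j
    refine Fin.cases ?_ (fun i => ?_) j
    · simp [dv]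
    · have : 1 ≤ l i := hl.1 i
      simp only [dv, Fin.cons_succ]
      linarith
  have h1 : ∀ j, a j * Real.log ((Real.exp (tt a l) • dv l) j) =
      a j * tt a l + a j * Real.log (dv l j) := by
    intro j
    rw [Pi.smul_apply, smul_eq_mul, Real.log_mul (Real.exp_pos _).ne' (hd j).ne', Real.log_exp]
    ring
  simp only [h1]
  rw [Finset.sum_add_distrib, ← Finset.sum_mul, Fin.sum_univ_succ (fun j => a j * Real.log (dv l j))]
  simp only [dv, Fin.cons_zero, Real.log_one, mul_zero, Fin.cons_succ, zero_add]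
  unfold tt
  field_simp
  ring

/-- the function to which the averaged estimate is applied -/
noncomputable def gg (h : (Fin (m + 1) → ℝ) → ℂ) (ξ : Fin (m + 1) → ℝ) : ℂ :=
  (Icc (-1) 1).indicator (fun ξ => h ((2 : ℝ) • ξ)) ξ

lemma gg_meas {h : (Fin (m + 1) → ℝ) → ℂ} (hh : Measurable h) : Measurable (gg h) := by
  unfold gg
  exact (hh.comp (measurable_const_smul (2 : ℝ))).indicator measurableSet_Icc

lemma gg_supp (h : (Fin (m + 1) → ℝ) → ℂ) (ξ : Fin (m + 1) → ℝ)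
    (hξ : ξ ∉ Icc (-1 : Fin (m + 1) → ℝ) 1) : gg h ξ = 0 := by
  unfold gg
  rw [indicator_of_notMem hξ]

lemma two_mem (ξ : Fin (m + 1) → ℝ) :
    (2 : ℝ) • ξ ∈ Icc (-2 : Fin (m + 1) → ℝ) 2 ↔ ξ ∈ Icc (-1 : Fin (m + 1) → ℝ) 1 := by
  simp only [mem_Icc, Pi.le_def, Pi.smul_apply, smul_eq_mul, Pi.neg_apply, Pi.ofNat_apply]
  constructor
  · rintro ⟨h1, h2⟩
    exact ⟨fun j => by have := h1 j; linarith, fun j => by have := h2 j; linarith⟩
  · rintro ⟨h1, h2⟩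
    exact ⟨fun j => by have := h1 j; linarith, fun j => by have := h2 j; linarith⟩

lemma gg_int {h : (Fin (m + 1) → ℝ) → ℂ} (hh : Measurable h) {q : ℝ} (hq : 0 < q) :
    ∫⁻ ξ, ‖gg h ξ‖ₑ ^ q ≤ ∫⁻ ξ in Icc (-2) 2, ‖h ξ‖ₑ ^ q := by
  set K : (Fin (m + 1) → ℝ) → ℝ≥0∞ := (Icc (-2) 2).indicator fun ξ => ‖h ξ‖ₑ ^ q with hK
  have hKm : Measurable K := (hh.enorm.pow_const q).indicator measurableSet_Icc
  have h1 : ∀ ξ, ‖gg h ξ‖ₑ ^ q = K ((2 : ℝ) • ξ) := by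
    intro ξ
    unfold gg
    by_cases hξ : ξ ∈ Icc (-1 : Fin (m + 1) → ℝ) 1
    · rw [indicator_of_mem hξ, hK, indicator_of_mem ((two_mem ξ).2 hξ)]
    · rw [indicator_of_notMem hξ, hK, indicator_of_notMem (fun h => hξ ((two_mem ξ).1 h)),
        enorm_zero, ENNReal.zero_rpow_of_pos hq]
  simp only [h1]
  have h3 := lintegral_map (μ := (volume : Measure (Fin (m + 1) → ℝ))) (f := K)
    (g := fun x => (2 : ℝ) • x) hKm (by fun_prop)
  rw [Measure.map_addHaar_smul volume (two_ne_zero), lintegral_smul_measure, smul_eq_mul,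
    Module.finrank_fin_fun] at h3
  rw [← h3, ← lintegral_indicator measurableSet_Icc]
  calc ENNReal.ofReal |(2 ^ (m + 1))⁻¹| * ∫⁻ a, K a ≤ 1 * ∫⁻ a, K a := by
        gcongr
        rw [ENNReal.ofReal_le_one, abs_of_pos (by positivity)]
        exact inv_le_one_of_one_le₀ (one_le_pow₀ one_le_two)
    _ = _ := one_mul _

lemma gg_integrable {h : (Fin (m + 1) → ℝ) → ℂ} (hh : Measurable h) {q : ℝ} (hq : 1 ≤ q)
    (hf : ∫⁻ ξ in Icc (-2) 2, ‖h ξ‖ₑ ^ q ≠ ⊤) : Integrable (gg h) := by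
  have hq0 : 0 < q := by linarith
  have h1 : MemLp (gg h) (ENNReal.ofReal q) volume := by
    refine ⟨(gg_meas hh).aestronglyMeasurable, ?_⟩
    rw [eLpNorm_lt_top_iff_lintegral_rpow_enorm_lt_top (ENNReal.ofReal_pos.2 hq0).ne'
      ENNReal.ofReal_ne_top, ENNReal.toReal_ofReal hq0.le]
    exact (gg_int hh hq0).trans_lt hf.lt_top
  have h2 : IntegrableOn (gg h) (Icc (-1) 1) := by
    have h3 : MemLp (gg h) (ENNReal.ofReal q) (volume.restrict (Icc (-1) 1)) := h1.restrict _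
    have : IsFiniteMeasure (volume.restrict (Icc (-1 : Fin (m + 1) → ℝ) 1)) :=
      ⟨by rw [Measure.restrict_apply_univ]; exact isCompact_Icc.measure_lt_top⟩
    exact memLp_one_iff_integrable.1 (h3.mono_exponent (by
      rw [← ENNReal.ofReal_one]
      exact ENNReal.ofReal_le_ofReal hq))
  refine (integrableOn_iff_integrable_of_support_subset ?_).1 h2
  intro ξ hξ
  by_contra h3
  exact hξ (gg_supp h ξ h3)

/-- the estimate through one dilate -/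
lemma one_l (c : Fin (m + 1) → ℝ) {a : Fin (m + 1) → ℝ} (ha : ∑ j, a j ≠ 0)
    {h : (Fin (m + 1) → ℝ) → ℂ} (hh : Measurable h) (hsi : SI a h) {q : ℝ} (hq : 1 ≤ q)
    (hf : ∫⁻ ξ in Icc (-2) 2, ‖h ξ‖ₑ ^ q ≠ ⊤) {φ : (Fin (m + 1) → ℝ) → ℂ} (hφ : Integrable φ)
    (hφm : Measurable φ) (hφs : ∀ ξ, ξ ∉ Icc (-1 : Fin (m + 1) → ℝ) 1 → wnd φ ξ = 0)
    {l : Fin m → ℝ} (hl : l ∈ Icc (fun _ => (1 : ℝ)) (fun _ => LL a)) :
    ∫⁻ y, ‖ext0 c (fun ξ => wnd φ ξ * h ξ) y‖ₑ ^ q ≤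
      ((∫⁻ η, ‖φ η‖ₑ) ^ q * ENNReal.ofReal (4 ^ ((m + 1 : ℕ) * q))) *
        ∫⁻ y, ‖ext0 c (fun ξ => gg h (dv l * ξ)) y‖ₑ ^ q := by
  have hd : ∀ j, 1 ≤ dv l j := by
    intro j
    refine Fin.cases ?_ (fun i => ?_) j
    · simp [dv]
    · simpa [dv] using hl.1 i
  obtain ⟨b1, b2, b3⟩ := tt_bd hl
  set Λ := Real.exp (tt a l) with hΛ
  have hΛ0 : 0 < Λ := Real.exp_pos _
  set κ := Λ / 2 with hκ
  have hκ0 : 0 < κ := by positivity
  have hκ1 : κ ≤ 1 := by rw [hκ]; linarith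
  have hκ4 : 1 / 4 ≤ κ := by rw [hκ]; linarith
  obtain ⟨χ, hχ, hχh⟩ := hsi (Λ • dv l) (fun j => by
    have := hd j
    rw [Pi.smul_apply, smul_eq_mul]
    positivity) (tt_inv ha hl)
  set B : Set (Fin (m + 1) → ℝ) := {η | κ • (dv l * η) ∈ Icc (-1 : Fin (m + 1) → ℝ) 1} with hB
  have hBm : MeasurableSet B := by
    have : Measurable fun η : Fin (m + 1) → ℝ => κ • (dv l * η) := by fun_prop
    exact this measurableSet_Icc
  set hb := B.indicator h with hhb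
  have hbm : Measurable hb := hh.indicator hBm
  have hcB : Icc (-1 : Fin (m + 1) → ℝ) 1 ⊆ B := by
    intro ξ hξ
    have h1 : ∀ j, κ * dv l j ≤ 1 := by
      intro j
      refine Fin.cases ?_ (fun i => ?_) j
      · simpa [dv] using hκ1
      · simp only [dv, Fin.cons_succ]
        have := b3 i
        rw [hκ]
        linarith
    have h2 : ∀ j, 0 ≤ κ * dv l j := fun j => by
      have := hd j
      positivity
    rw [hB, mem_ofPred_eq]
    refine ⟨fun j => ?_, fun j => ?_⟩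
    · have a1 := hξ.1 j
      simp only [Pi.neg_apply, Pi.one_apply, Pi.smul_apply, Pi.mul_apply, smul_eq_mul] at a1 ⊢
      have := h1 j
      have := h2 j
      nlinarith
    · have a1 := hξ.2 j
      simp only [Pi.one_apply, Pi.smul_apply, Pi.mul_apply, smul_eq_mul] at a1 ⊢
      have := h1 j
      have := h2 j
      nlinarith
  have hw : (fun ξ => wnd φ ξ * h ξ) = fun ξ => wnd φ ξ * hb ξ := by
    ext ξ
    by_cases hξ : ξ ∈ Icc (-1 : Fin (m + 1) → ℝ) 1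
    · rw [hhb, indicator_of_mem (hcB hξ)]
    · rw [hφs ξ hξ, zero_mul, zero_mul]
  set F : (Fin (m + 1) → ℝ) → ℂ := fun ξ => gg h (dv l * ξ) with hF
  have hFm : Measurable F := (gg_meas hh).comp (by fun_prop)
  have hFκ : ∀ᵐ η, F (κ • η) = χ * hb η := by
    filter_upwards [hχh] with η hη
    have e1 : dv l * κ • η = κ • (dv l * η) := by
      ext j
      simp only [Pi.mul_apply, Pi.smul_apply, smul_eq_mul]
      ring
    have e2 : (2 : ℝ) • κ • (dv l * η) = Λ • dv l * η := by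
      ext j
      simp only [Pi.mul_apply, Pi.smul_apply, smul_eq_mul, hκ]
      ring
    rw [hF]
    simp only
    rw [e1]
    unfold gg
    by_cases hη2 : κ • (dv l * η) ∈ Icc (-1 : Fin (m + 1) → ℝ) 1
    · rw [indicator_of_mem hη2, hhb, indicator_of_mem (show η ∈ B from hη2), e2, hη]
    · rw [indicator_of_notMem hη2, hhb, indicator_of_notMem (show η ∉ B from hη2), mul_zero]
  have hFi : Integrable F := by
    obtain ⟨κ', hκ0', hκ1', hκ'⟩ := dil_map (dv l) hd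
    have h1 : Integrable (gg h) (Measure.map (fun ξ : Fin (m + 1) → ℝ => dv l * ξ) volume) := by
      rw [hκ']
      exact (gg_integrable hh hq hf).smul_measure (hκ1'.trans_lt ENNReal.one_lt_top).ne
    exact h1.comp_measurable (by fun_prop)
  have hχ0 : χ ≠ 0 := by
    intro h0
    rw [h0, norm_zero] at hχ
    exact zero_ne_one hχ
  have hbi : Integrable hb := by
    have h1 : Integrable fun η => χ * hb η :=
      (hFi.comp_smul hκ0.ne').congr hFκ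
    have h2 := h1.const_mul χ⁻¹
    refine h2.congr (ae_of_all _ fun η => ?_)
    simp only
    rw [← mul_assoc, inv_mul_cancel₀ hχ0, one_mul]
  have hFy : ∀ y, ‖ext0 c F y‖ₑ ^ q =
      ENNReal.ofReal (κ ^ ((m + 1 : ℕ) * q)) * ‖ext0 c hb (κ • y.1, κ ^ 2 * y.2)‖ₑ ^ q := by
    intro y
    have h1 : ext0 c (fun η => F (κ • η)) (κ • y.1, κ ^ 2 * y.2) =
        χ * ext0 c hb (κ • y.1, κ ^ 2 * y.2) := by
      unfold ext0
      rw [← integral_const_mul]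
      apply integral_congr_ae
      filter_upwards [hFκ] with η hη
      rw [hη]
      ring
    have h2 : ‖χ‖ₑ = 1 := by rw [← ofReal_norm, hχ, ENNReal.ofReal_one]
    have h3 : ‖((κ ^ (m + 1) : ℝ) : ℂ)‖ₑ = ENNReal.ofReal (κ ^ (m + 1)) := by
      rw [← ofReal_norm, Complex.norm_real, Real.norm_of_nonneg (by positivity)]
    rw [ext0_scale c κ hκ0 F y, h1, enorm_mul, enorm_mul, h2, one_mul, h3,
      ENNReal.mul_rpow_of_nonneg _ _ (by linarith),
      ENNReal.ofReal_rpow_of_nonneg (by positivity) (by linarith), ← Real.rpow_natCast,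
      ← Real.rpow_mul hκ0.le]
  have hY : ∫⁻ y, ‖ext0 c F y‖ₑ ^ q = ENNReal.ofReal (κ ^ ((m + 1 : ℕ) * q)) *
      (ENNReal.ofReal ((κ ^ (m + 1 + 2))⁻¹) * ∫⁻ y, ‖ext0 c hb y‖ₑ ^ q) := by
    have hU : Measurable fun y => ‖ext0 c hb y‖ₑ ^ q := (ext0_meas c hbm).enorm.pow_const q
    have hU2 : Measurable fun y : (Fin (m + 1) → ℝ) × ℝ =>
        ‖ext0 c hb (κ • y.1, κ ^ 2 * y.2)‖ₑ ^ q :=
      hU.comp (by fun_prop : Measurable fun y : (Fin (m + 1) → ℝ) × ℝ => (κ • y.1, κ ^ 2 * y.2))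
    simp only [hFy]
    rw [lintegral_const_mul _ hU2, lint_scale κ hκ0 (fun y => ‖ext0 c hb y‖ₑ ^ q) hU]
  have hle : ∫⁻ y, ‖ext0 c hb y‖ₑ ^ q ≤ ENNReal.ofReal (4 ^ ((m + 1 : ℕ) * q)) *
      ∫⁻ y, ‖ext0 c F y‖ₑ ^ q := by
    rw [hY, ← mul_assoc, ← mul_assoc, ← ENNReal.ofReal_mul (by positivity),
      ← ENNReal.ofReal_mul (by positivity)]
    have h1 : (1 : ℝ) ≤ 4 ^ ((m + 1 : ℕ) * q) * κ ^ ((m + 1 : ℕ) * q) * (κ ^ (m + 1 + 2))⁻¹ := by
      rw [← Real.mul_rpow (by norm_num) hκ0.le]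
      have h2 : 1 ≤ (4 * κ) ^ ((m + 1 : ℕ) * q) :=
        Real.one_le_rpow (by linarith) (by positivity)
      have h3 : 1 ≤ (κ ^ (m + 1 + 2))⁻¹ := by
        rw [one_le_inv₀ (by positivity)]
        exact pow_le_one₀ hκ0.le hκ1
      nlinarith
    calc ∫⁻ y, ‖ext0 c hb y‖ₑ ^ q = 1 * ∫⁻ y, ‖ext0 c hb y‖ₑ ^ q := (one_mul _).symm
      _ ≤ _ := by
        gcongr
        rw [← ENNReal.ofReal_one]
        exact ENNReal.ofReal_le_ofReal h1
  rw [hw]
  refine (ext0_wnd_lq c hφ hφm hbi hbm q hq).trans ?_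
  rw [mul_assoc]
  exact mul_le_mul' le_rfl hle

/-- the full range of the extension estimate for semi-invariant functions -/
theorem main_SI (hm : 0 < m) (c a : Fin (m + 1) → ℝ) (hc : ∀ j, c j ≠ 0) (ha : ∑ j, a j ≠ 0)
    (q : ℝ) (hq : 2 + 2 / (1 + (m : ℝ)) < q) :
    ∃ C : ℝ≥0, ∀ h : (Fin (m + 1) → ℝ) → ℂ, Measurable h → SI a h →
      ∫⁻ ξ in Icc (-2) 2, ‖h ξ‖ₑ ^ q ≠ ⊤ →
      ∀ φ : (Fin (m + 1) → ℝ) → ℂ, Integrable φ →
        (∀ ξ, ξ ∉ Icc (-1 : Fin (m + 1) → ℝ) 1 → wnd φ ξ = 0) →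
        ∫⁻ y, ‖ext0 c (fun ξ => wnd φ ξ * h ξ) y‖ₑ ^ q ≤
          C * (∫⁻ η, ‖φ η‖ₑ) ^ q * ∫⁻ ξ in Icc (-2) 2, ‖h ξ‖ₑ ^ q := by
  have hm0 : (0 : ℝ) < m := Nat.cast_pos.2 hm
  have hq1 : 1 ≤ q := by
    have : 0 < 2 / (1 + (m : ℝ)) := by positivity
    linarith
  obtain ⟨C0, hC0, hmain⟩ := avg_Lq m c hc m q (LL a) 1 hm0 hq
  have hfr : Frost (volume : Measure (Fin m → ℝ)) 1 m := by
    intro b r hr _
    rw [Real.volume_Icc_pi]
    simp only [add_sub_cancel_left, Finset.prod_const, Finset.card_univ, Fintype.card_fin, one_mul]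
    rw [← ENNReal.ofReal_pow hr.le, Real.rpow_natCast]
  set v : ℝ≥0∞ := volume (Icc (fun _ : Fin m => (1 : ℝ)) (fun _ => LL a)) with hv
  have hv0 : v ≠ 0 := by
    rw [hv, Real.volume_Icc_pi, Finset.prod_ne_zero_iff]
    intro j _
    have := LL_gt a
    exact (ENNReal.ofReal_pos.2 (by linarith)).ne'
  have hvt : v ≠ ⊤ := isCompact_Icc.measure_lt_top.ne
  set k : ℝ≥0∞ := ENNReal.ofReal (4 ^ ((m + 1 : ℕ) * q)) with hk
  have hCf : v⁻¹ * (k * C0) ≠ ⊤ := ENNReal.mul_ne_top (ENNReal.inv_ne_top.2 hv0)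
    (ENNReal.mul_ne_top ENNReal.ofReal_ne_top hC0.ne)
  refine ⟨(v⁻¹ * (k * C0)).toNNReal, fun h hh hsi hf φ hφ hφs => ?_⟩
  rw [ENNReal.coe_toNNReal hCf]
  obtain ⟨φ', hφm', hφe⟩ := hφ.1
  have hφi : Integrable φ' := hφ.congr hφe
  have hwe : wnd φ = wnd φ' := by
    ext ξ
    unfold wnd
    apply integral_congr_ae
    filter_upwards [hφe] with η hη
    rw [hη]
  have hn : ∫⁻ η, ‖φ η‖ₑ = ∫⁻ η, ‖φ' η‖ₑ := by
    apply lintegral_congr_ae
    filter_upwards [hφe] with η hη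
    rw [hη]
  rw [hn, hwe]
  rw [hwe] at hφs
  set Φ := ∫⁻ η, ‖φ' η‖ₑ with hΦ
  have hΦt : Φ ≠ ⊤ := hφi.2.ne
  set X := ∫⁻ y, ‖ext0 c (fun ξ => wnd φ' ξ * h ξ) y‖ₑ ^ q with hX
  have h1 : v * X ≤ (Φ ^ q * k) * (C0 * ∫⁻ ξ, ‖gg h ξ‖ₑ ^ q) := by
    calc v * X = ∫⁻ l in Icc (fun _ : Fin m => (1 : ℝ)) (fun _ => LL a), X := by
          rw [setLIntegral_const, mul_comm]
      _ ≤ ∫⁻ l in Icc (fun _ : Fin m => (1 : ℝ)) (fun _ => LL a), (Φ ^ q * k) *
          ∫⁻ y, ‖ext0 c (fun ξ => gg h (dv l * ξ)) y‖ₑ ^ q := by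
          apply setLIntegral_mono' measurableSet_Icc
          intro l hl
          exact one_l c ha hh hsi hq1 hf hφi hφm'.measurable hφs hl
      _ = (Φ ^ q * k) * ∫⁻ l in Icc (fun _ : Fin m => (1 : ℝ)) (fun _ => LL a),
          ∫⁻ y, ‖ext0 c (fun ξ => gg h (dv l * ξ)) y‖ₑ ^ q := by
          rw [lintegral_const_mul']
          exact ENNReal.mul_ne_top (ENNReal.rpow_ne_top_of_nonneg (by linarith) hΦt)
            ENNReal.ofReal_ne_top
      _ ≤ _ := by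
          refine mul_le_mul' le_rfl (hmain volume hfr (gg h) (gg_meas hh) (gg_supp h) ?_)
          exact ((gg_int hh (by linarith)).trans_lt hf.lt_top).ne
  calc X = v⁻¹ * (v * X) := by
        rw [← mul_assoc, ENNReal.inv_mul_cancel hv0 hvt, one_mul]
    _ ≤ v⁻¹ * ((Φ ^ q * k) * (C0 * ∫⁻ ξ, ‖gg h ξ‖ₑ ^ q)) := mul_le_mul' le_rfl h1
    _ ≤ v⁻¹ * ((Φ ^ q * k) * (C0 * ∫⁻ ξ in Icc (-2) 2, ‖h ξ‖ₑ ^ q)) :=
        mul_le_mul' le_rfl (mul_le_mul' le_rfl (mul_le_mul' le_rfl (gg_int hh (by linarith))))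
    _ = _ := by ring

end Pool.Agent.W777.MF
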